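import Mathlib

/-! Project MT. Decomposition of a semisimple representation into simple blocks. -/

set_option autoImplicit false

namespace Pool.Agent.Helper15.MT

open Module

variable {L W G : Type*} [Field L] [AddCommGroup W] [Module L W] [Group G]

/-- stable under the group -/
def GStab (ρ : G →* End L W) (S : Submodule L W) : Prop := ∀ g, ∀ s ∈ S, ρ g s ∈ S

/-- a simple subrepresentation -/
def GSimple (ρ : G →* End L W) (B : Submodule L W) : Prop :=
  GStab ρ B ∧ B ≠ ⊥ ∧ ∀ S : Submodule L W, GStab ρ S → S ≤ B → S = ⊥ ∨ S = B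

variable {ρ : G →* End L W}

theorem GStab.inf {S T : Submodule L W} (hS : GStab ρ S) (hT : GStab ρ T) : GStab ρ (S ⊓ T) :=
  fun g s hs => ⟨hS g s hs.1, hT g s hs.2⟩

theorem GStab.sup {S T : Submodule L W} (hS : GStab ρ S) (hT : GStab ρ T) : GStab ρ (S ⊔ T) := by
  intro g s hs
  have h1 : S ⊔ T ≤ (S ⊔ T).comap (ρ g) := by
    refine sup_le (fun s hs => ?_) fun s hs => ?_
    · exact (le_sup_left : S ≤ S ⊔ T) (hS g s hs)
    · exact (le_sup_right : T ≤ S ⊔ T) (hT g s hs)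
  exact h1 hs

theorem GStab.bot : GStab ρ ⊥ := by
  intro g s hs
  rw [Submodule.mem_bot] at hs ⊢
  rw [hs, map_zero]

theorem GStab.finset_sup (s : Finset (Submodule L W)) (hs : ∀ B ∈ s, GStab ρ B) :
    GStab ρ (s.sup id) := by
  classical
  induction s using Finset.induction_on with
  | empty =>
    rw [Finset.sup_empty]
    exact GStab.bot
  | insert B s hB ih =>
    rw [Finset.sup_insert]
    exact (hs B (Finset.mem_insert_self _ _)).sup
      (ih fun B' hB' => hs B' (Finset.mem_insert_of_mem hB'))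

theorem exists_simple [FiniteDimensional L W] {S : Submodule L W} (hS : GStab ρ S) (h0 : S ≠ ⊥) :
    ∃ B ≤ S, GSimple ρ B := by
  obtain ⟨B, ⟨h1, h2, h3⟩, hmin⟩ := (wellFounded_lt (α := Submodule L W)).has_min
    {B | B ≠ ⊥ ∧ GStab ρ B ∧ B ≤ S} ⟨S, h0, hS, le_rfl⟩
  refine ⟨B, h3, h2, h1, fun T hT hle => ?_⟩
  by_contra hcon
  push Not at hcon
  exact hmin T ⟨hcon.1, hT, hle.trans h3⟩ (lt_of_le_of_ne hle hcon.2)

theorem exists_blocks [FiniteDimensional L W]
    (hc : ∀ S : Submodule L W, GStab ρ S → ∃ S', GStab ρ S' ∧ IsCompl S S') :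
    ∃ s : Finset (Submodule L W), (∀ B ∈ s, GSimple ρ B) ∧ s.SupIndep id ∧ s.sup id = ⊤ := by
  classical
  obtain ⟨P, hP⟩ : ∃ P : Finset (Submodule L W) → Prop, ∀ s, P s ↔
    ((∀ B ∈ s, GSimple ρ B) ∧ s.SupIndep id) := ⟨_, fun _ => Iff.rfl⟩
  obtain ⟨T, ⟨s, hs, hsT⟩, hmax⟩ := (wellFounded_gt (α := Submodule L W)).has_min
    {T | ∃ s, P s ∧ s.sup id = T} ⟨_, ∅, (hP ∅).2 ⟨by simp, Finset.supIndep_empty _⟩, rfl⟩
  rw [hP] at hs
  refine ⟨s, hs.1, hs.2, ?_⟩
  by_contra hne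
  obtain ⟨C, hC, hcompl⟩ := hc _ (GStab.finset_sup (ρ := ρ) s fun B hB => (hs.1 B hB).1)
  have hC0 : C ≠ ⊥ := by
    rintro rfl
    apply hne
    have h1 := hcompl.sup_eq_top
    rwa [sup_bot_eq] at h1
  obtain ⟨B, hBC, hB⟩ := exists_simple hC hC0
  have hdisj : Disjoint (id B) (s.sup id) := by
    refine Disjoint.symm ?_
    exact hcompl.disjoint.mono_right hBC
  refine hmax ((insert B s).sup id) ⟨insert B s, (hP _).2 ⟨?_, hs.2.insert hdisj⟩, rfl⟩ ?_
  · intro B' hB'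
    rcases Finset.mem_insert.1 hB' with rfl | h
    · exact hB
    · exact hs.1 B' h
  · rw [Finset.sup_insert, ← hsT]
    refine lt_of_le_of_ne le_sup_right fun h => ?_
    have h1 : B ≤ s.sup id := by
      rw [h]
      exact le_sup_left
    have h2 := hdisj le_rfl h1
    exact hB.2.1 (le_bot_iff.1 h2)

end Pool.Agent.Helper15.MT
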