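import Pool.Agent.Helper15.MT.Final

/-! Project MT. The theorem for covers, from the geometric input. -/

set_option autoImplicit false

namespace Pool.Agent.Helper15.MT

open IntermediateField CategoryTheory MonoidalCategory Pool.Agent.Helper15.GD
  Pool.Agent.Helper15.QM Pool.Agent.Helper70.MTG Pool.Agent.Helper75.QC
  Pool.Agent.Helper75.WC Pool.Agent.Helper48.TT Pool.Agent.Helper15.V7

section inv

variable {L G W : Type} [Field L] [Group G] [AddCommGroup W] [Module L W] {n : ℕ}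

/-- the elements which fix a form -/
theorem inv_closure (ρ : G →* Module.End L W)
    (t : MultilinearMap L (fun _ : Fin n => W × Module.Dual L W) L) (s : Set G)
    (h : ∀ g ∈ s, Inv (hatG (ρ g) (ρ g⁻¹)) t) :
    ∀ g ∈ Subgroup.closure s, Inv (hatG (ρ g) (ρ g⁻¹)) t := by
  intro g hg
  induction hg using Subgroup.closure_induction with
  | mem g hg => exact h g hg
  | one =>
    rw [inv_one, map_one, hatG_one]
    exact Inv.one
  | mul g h _ _ h1 h2 =>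
    have h3 := h1.mul h2
    rw [hatG_mul, ← map_mul, ← map_mul, ← mul_inv_rev] at h3
    exact h3
  | inv g _ h1 =>
    intro z
    have h2 := h1 fun k => hatG (ρ g⁻¹) (ρ g⁻¹⁻¹) (z k)
    have h3 : hatG (ρ g) (ρ g⁻¹) * hatG (ρ g⁻¹) (ρ g⁻¹⁻¹) = 1 := by
      rw [hatG_mul, inv_inv, ← map_mul, mul_inv_cancel, map_one, hatG_one]
    have h4 : ∀ k, hatG (ρ g) (ρ g⁻¹) (hatG (ρ g⁻¹) (ρ g⁻¹⁻¹) (z k)) = z k := fun k =>
      congrArg (fun f => f (z k)) h3
    simp only [h4] at h2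
    exact h2.symm

end inv

variable {Ω L G : Type} [Field Ω] [Field L] [Group G] {T : MotivicCoh Ω L G} {J P : Subgroup G}
  {𝓜 : Set (Lˣ →* G)} (hT : T.IsMotivic)

/-- reflections -/
theorem IsReflection.isRefl {V : ModuleCat.{0} L} {ρ : G → (V ⟶ V)} {m : Lˣ →* G}
    {B : Submodule L V} (h : IsReflection ρ m B) (r : G →* Module.End L V)
    (hr : ∀ g, r g = (ρ g).hom) : IsRefl r m B := by
  obtain ⟨a, b, hab, h1, h2⟩ := h
  obtain ⟨⟨v, hv⟩, hv0, h3⟩ := finrank_eq_one_iff'.1 h1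
  have hwt : ∀ (k : ℤ) (w : V), w ∈ B ⊓ weight ρ m k →
      ∀ u : Lˣ, r (m u) w = ((u ^ k : Lˣ) : L) • w := by
    intro k w hw u
    have h4 := (Submodule.mem_iInf _).1 (show w ∈ weight ρ m k from hw.2)
    rw [hr]
    exact Module.End.mem_eigenspace_iff.1 (h4 u)
  have h4 : B ⊓ weight ρ m a = Submodule.span L {v} := by
    refine le_antisymm (fun w hw => ?_) ?_
    · obtain ⟨c, hc⟩ := h3 ⟨w, hw⟩
      exact Submodule.mem_span_singleton.2 ⟨c, congrArg Subtype.val hc⟩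
    · rw [Submodule.span_singleton_le_iff_mem]
      exact hv
  refine ⟨a, b, v, B ⊓ weight ρ m b, hab, fun h => hv0 (Subtype.ext h), ?_, hwt a v hv,
    fun u w hw => hwt b w hw u⟩
  rw [← h4]
  exact h2

/-- **The theorem for covers.** -/
theorem cover [IsAlgClosed Ω] [CharZero L] [IsAlgClosed L] (hJ : IsArithmetic T J P 𝓜)
    {K : Ext Ω} (R : IntermediateField Ω K) [FiniteDimensional R K] [IsGalois R K]
    (hab : ∀ g h : K ≃ₐ[R] K, g * h = h * g)
    (hM : ∀ M : IntermediateField R K, IsCyclic (M ≃ₐ[R] M) →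
      Uniruled Ω M 2 ∨ ∃ n, RowB (T.toTheory hT).toBaseTheory R M n)
    (K₀ : Ext Ω) (j : K₀.Hom K) (hj : j.IsAlgebraic) :
    (∀ γ, ∃ δ ∈ P, T.act 2 K₀ γ = T.act 2 K₀ δ) ∧
    ∀ J' ≤ J, J'.relIndex J ≠ 0 → IsTate (T.act 2 K₀) (T.act 2 K₀) J' ∧
      ((∀ B, IsSimple (T.act 2 K₀) B → 1 < Module.finrank L B →
          ∃ m ∈ 𝓜, IsReflection (T.act 2 K₀) m B) →
        ∀ (n : ℕ) (t : MultilinearMap L
          (fun _ : Fin n => T.H 2 K₀ × Module.Dual L (T.H 2 K₀)) L),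
          (∀ γ ∈ J', IsFixed (T.act 2 K₀) t γ) → ∀ γ, IsFixed (T.act 2 K₀) t γ) := by
  obtain ⟨ι, hι, D, C, d, z, al, hD, hC, hz, hal, hd, hinj⟩ :=
    mt_cover (T.toTheory hT) (ssimple_of hT hJ) (lines_of hT hJ) R hab hM
  let ρ : G →* Module.End L (T.H 2 K₀) := (T.toTheory hT).act 2 K₀
  let s : T.H 2 K₀ →ₗ[L] T.H 2 K := (T.toTheory hT).map 2 j
  have hs : ∀ γ t, (T.toTheory hT).act 2 K γ (s t) = s (ρ γ t) :=
    fun γ t => ((T.toTheory hT).map_act 2 j γ t).symm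
  have hsinj : Function.Injective s := (T.toTheory hT).inj 2 j hj
  have hd' : ∀ i γ t, (T.act 1 (D i) γ).hom ((d i ∘ₗ s) t) =
      (T.tate γ * al i γ) • (d i ∘ₗ s) (ρ γ t) := by
    intro i γ t
    have h1 := hd i γ (s t)
    rw [hs] at h1
    exact h1
  have hinj' : ∀ t, (∀ i, (d i ∘ₗ s) t = 0) → t = 0 := fun t ht =>
    hsinj ((hinj _ ht).trans (map_zero s).symm)
  have hfin : FiniteDimensional L (T.H 2 K₀) := by
    have h1 : ∀ i, FiniteDimensional L ((T.toTheory hT).H 1 (D i)) :=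
      fun i => hT.base.finite 1 (D i) (hD i)
    refine FiniteDimensional.of_injective (LinearMap.pi fun i => d i ∘ₗ s) ?_
    refine (injective_iff_map_eq_zero _).2 fun t ht => hinj' t fun i => ?_
    exact congrFun ht i
  have H := fun (J' : Subgroup G) (h1 : J' ≤ J) (h2 : J'.relIndex J ≠ 0) =>
    hyp_of hT hJ ρ D C hD hC (fun i => d i ∘ₗ s) z al hz hal hd' hinj' J' h1 h2
  have hself : J.relIndex J ≠ 0 := by rw [Subgroup.relIndex_self]; exact one_ne_zero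
  have hgen : ∀ Q : Subgroup G,
      (∀ (n : ℕ) (D : Fin n → Ext Ω), (∀ i, (D i).FG) → IsFull T Q D) →
      ∀ γ, ∃ δ ∈ Q, ρ γ = ρ δ := by
    intro Q hQ γ
    obtain ⟨δ, h1, h2⟩ := gen_of hT hQ D C hD hC z al hz hal γ
    refine ⟨δ, h1, LinearMap.ext fun t => ?_⟩
    refine sub_eq_zero.1 (hinj' _ fun i => ?_)
    have h3 := (H J le_rfl hself).tw i γ t
    have h4 := (H J le_rfl hself).tw i δ t
    rw [twist_congr (h2 i).1 (h2 i).2] at h3
    rw [map_sub]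
    exact sub_eq_zero.2 (h3.symm.trans h4)
  refine ⟨fun γ => ?_, fun J' h1 h2 => ⟨⟨fun S hS => ?_, fun f hf γ _ => ?_, fun β hβ γ _ => ?_⟩,
    fun hB n t ht γ => ?_⟩⟩
  · obtain ⟨δ, h1, h2⟩ := hgen P (fun n D hD => (hJ.deligne n D hD).1) γ
    exact ⟨δ, h1, ModuleCat.hom_ext h2⟩
  · exact ((H J' h1 h2).transfer_sub S hS).2
  · obtain ⟨c, hc⟩ := (H J' h1 h2).transfer_semi f.hom (fun g hg => by
      obtain ⟨c, hc⟩ := hf g hg
      exact ⟨c, fun x => congrArg (fun f => f.hom x) hc⟩) γ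
    exact ⟨c, ModuleCat.hom_ext (LinearMap.ext hc)⟩
  · exact (H J' h1 h2).transfer_form β (fun g hg => hβ g hg) γ
  · have hsub : ∀ J'' ≤ J', J''.relIndex J' ≠ 0 → ∀ S : Submodule L (T.H 2 K₀),
        (∀ g ∈ J'', ∀ s ∈ S, ρ g s ∈ S) →
        GStab ρ S ∧ ∃ S', GStab ρ S' ∧ IsCompl S S' := by
      intro J'' h3 h4 S hS
      have H' := H J'' (h3.trans h1) (Subgroup.relIndex_ne_zero_trans h4 h2)
      obtain ⟨h5, S', h6, h7⟩ := H'.transfer_sub S hS
      exact ⟨h5, S', (H'.transfer_sub S' h6).1, h7⟩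
    have hmain := mt_abstract ρ J' hsub (H J' h1 h2).transfer_semi (H J' h1 h2).transfer_form 𝓜
      (fun m hm => ⟨mem_of_relIndex h2 m (hJ.mem m hm), isWt_of_iSup _ (hJ.weights m hm K₀)⟩)
      (fun B hB' hdim => by
        obtain ⟨m, hm, hr⟩ := hB B ⟨hB'.2.1, fun γ _ => hB'.1 γ, fun S hSB hS =>
          hB'.2.2 S (fun γ => hS γ (Subgroup.mem_top _)) hSB⟩ hdim
        exact ⟨m, hm, hr.isRefl ρ fun _ => rfl⟩) t ht
    obtain ⟨δ, h3, h4⟩ := hgen (generated 𝓜) (fun n D hD => (hJ.deligne n D hD).2) γ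
    have h5 : ∀ g ∈ generated 𝓜, Inv (hatG (ρ g) (ρ g⁻¹)) t := by
      refine inv_closure ρ t _ fun g hg => ?_
      obtain ⟨_, ⟨m, hm, u, rfl⟩, hconj⟩ := Group.mem_conjugatesOfSet_iff.1 hg
      obtain ⟨c, rfl⟩ := isConj_iff.1 hconj
      exact hmain m hm c u
    have h6 := h5 δ h3
    rw [← h4, ← inv_congr h4] at h6
    exact h6

end Pool.Agent.Helper15.MT
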