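import Pool.Agent.Helper15.GD.Motivic

/-!
# The Galois group, the Mumford-Tate group and the Hodge-Tate cocharacters: the axioms
-/

set_option autoImplicit false

namespace Pool.Agent.Helper15.MT

open IntermediateField CategoryTheory MonoidalCategory Pool.Agent.Helper15.GD

section rep

variable {L G : Type} [Field L] [Group G] {V V' : ModuleCat.{0} L}

/-- `S` is stable under the elements of `J`, which act by `ρ`. -/
def IsStable (ρ : G → (V ⟶ V)) (J : Subgroup G) (S : Submodule L V) : Prop :=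
  ∀ γ ∈ J, ∀ x ∈ S, (ρ γ).hom x ∈ S

/-- `f` spans a line which is stable under `J`. -/
def IsSemiMap (ρ : G → (V ⟶ V)) (ρ' : G → (V' ⟶ V')) (J : Subgroup G) (f : V ⟶ V') : Prop :=
  ∀ γ ∈ J, ∃ c : L, f ≫ ρ' γ = c • ρ γ ≫ f

/-- The form `β` spans a line which is stable under `J`. -/
def IsSemiForm (ρ : G → (V ⟶ V)) (ρ' : G → (V' ⟶ V')) (J : Subgroup G)
    (β : V →ₗ[L] Module.Dual L V') : Prop :=
  ∀ γ ∈ J, ∃ c : L, ∀ x y, β ((ρ γ).hom x) ((ρ' γ).hom y) = c * β x y

/-- The representation `V` of `J` is semisimple, and the maps `V → V'` and the forms on `V × V'`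
which span lines stable under `J` span lines stable under `G`. -/
structure IsTate (ρ : G → (V ⟶ V)) (ρ' : G → (V' ⟶ V')) (J : Subgroup G) : Prop where
  semisimple : ∀ S, IsStable ρ J S → ∃ S', IsStable ρ J S' ∧ IsCompl S S'
  map : ∀ f, IsSemiMap ρ ρ' J f → IsSemiMap ρ ρ' ⊤ f
  form : ∀ β, IsSemiForm ρ ρ' J β → IsSemiForm ρ ρ' ⊤ β

/-- the subspace on which `m z` is the multiplication by `z ^ k`, for all `z` -/
def weight (ρ : G → (V ⟶ V)) (m : Lˣ →* G) (k : ℤ) : Submodule L V :=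
  ⨅ z : Lˣ, Module.End.eigenspace (ρ (m z)).hom ((z ^ k : Lˣ) : L)

/-- `B` is a simple subrepresentation of `G`. -/
def IsSimple (ρ : G → (V ⟶ V)) (B : Submodule L V) : Prop :=
  B ≠ ⊥ ∧ IsStable ρ ⊤ B ∧ ∀ S ≤ B, IsStable ρ ⊤ S → S = ⊥ ∨ S = B

/-- `B` is the sum of its parts of weights `a ≠ b`, and the first one is a line. -/
def IsReflection (ρ : G → (V ⟶ V)) (m : Lˣ →* G) (B : Submodule L V) : Prop :=
  ∃ a b : ℤ, a ≠ b ∧ Module.finrank L (B ⊓ weight ρ m a : Submodule L V) = 1 ∧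
    B = (B ⊓ weight ρ m a) ⊔ (B ⊓ weight ρ m b)

/-- The multilinear form `t` on `V ⊕ V^∨` is fixed by `γ`. -/
def IsFixed (ρ : G → (V ⟶ V)) {n : ℕ}
    (t : MultilinearMap L (fun _ : Fin n => V × Module.Dual L V) L) (γ : G) : Prop :=
  ∀ z, t (fun k => ((ρ γ).hom (z k).1, (z k).2 ∘ₗ (ρ γ⁻¹).hom)) = t z

end rep

variable {Ω L G : Type} [Field Ω] [Field L] [Group G]

/-- the normal subgroup of `G` generated by the images of the cocharacters in `𝓜` -/
def generated (𝓜 : Set (Lˣ →* G)) : Subgroup G :=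
  Subgroup.normalClosure {γ | ∃ m ∈ 𝓜, ∃ z, m z = γ}

/-- On the Tate motive and on the `h^1(D i)` the elements of `G` act as elements of `P`. -/
def IsFull (T : MotivicCoh Ω L G) (P : Subgroup G) {n : ℕ} (D : Fin n → Ext Ω) : Prop :=
  ∀ γ, ∃ δ ∈ P, T.tate γ = T.tate δ ∧ ∀ i, T.act 1 (D i) γ = T.act 1 (D i) δ

/-- `J` is the Galois group (the connected component of its Zariski closure in the motivic Galois
group `G`), `P` the Mumford-Tate group, and `𝓜` the set of the Hodge-Tate cocharacters of `J`. -/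
structure IsArithmetic (T : MotivicCoh Ω L G) (J P : Subgroup G) (𝓜 : Set (Lˣ →* G)) :
    Prop where
  /-- the Hodge-Tate cocharacters are cocharacters of `J` -/
  mem : ∀ m ∈ 𝓜, ∀ z, m z ∈ J
  /-- the Hodge-Tate decomposition -/
  weights : ∀ m ∈ 𝓜, ∀ K : Ext Ω, ⨆ k : ℤ, weight (T.act 2 K) m k = ⊤
  /-- the eigenspaces of the Fermat curves are lines -/
  lines : ∀ (C : Ext Ω) (n α β : ℕ) (ζ : Ω) (v u : C) (σ : C.Hom C), IsCurve C n α β ζ v u σ →
    ∀ ξ : L, Module.finrank L (Module.End.eigenspace (T.map 1 σ).hom ξ) ≤ 1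
  /-- the theorem of Faltings -/
  faltings : ∀ J' ≤ J, J'.relIndex J ≠ 0 → ∀ D D' : Ext Ω, D.FG → D'.FG →
    IsTate (T.act 1 D) (T.act 1 D') J'
  /-- the theorem of Deligne and André: Hodge classes on abelian varieties are motivated; the
  cocharacters are conjugates of the Hodge cocharacters -/
  deligne : ∀ (n : ℕ) (D : Fin n → Ext Ω), (∀ i, (D i).FG) →
    IsFull T P D ∧ IsFull T (generated 𝓜) D

end Pool.Agent.Helper15.MT
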