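import Pool.Agent.Helper15.MT.Tensor

/-! Project MT. Multilinear forms on `W ⊕ W^∨`. -/

set_option autoImplicit false

namespace Pool.Agent.Helper15.MT

open Module

variable {L W : Type*} [Field L] [AddCommGroup W] [Module L W]

/-- the derivation of `W ⊕ W^∨` given by `A` -/
def hat (A : End L W) : End L (W × Dual L W) := LinearMap.prodMap A (-A.dualMap)

/-- the action on `W ⊕ W^∨` of an automorphism `g` with inverse `g'` -/
def hatG (g g' : End L W) : End L (W × Dual L W) := LinearMap.prodMap g g'.dualMap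

theorem hat_add (A B : End L W) : hat (A + B) = hat A + hat B := by
  ext x <;> simp [hat]
  abel

theorem hat_smul (c : L) (A : End L W) : hat (c • A) = c • hat A := by
  ext x <;> simp [hat]

theorem hat_sub (A B : End L W) : hat (A - B) = hat A - hat B := by
  rw [sub_eq_add_neg, ← neg_one_smul L B, hat_add, hat_smul, neg_one_smul L (hat B),
    ← sub_eq_add_neg]

theorem hat_zero : hat (0 : End L W) = 0 := by
  rw [← zero_smul L (0 : End L W), hat_smul, zero_smul]

theorem hat_bracket (A B : End L W) : hat (A * B - B * A) = hat A * hat B - hat B * hat A := by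
  refine LinearMap.ext fun z => Prod.ext ?_ ?_
  · rfl
  · refine LinearMap.ext fun w => ?_
    show -(z.2 ((A * B - B * A) w)) = (-((-(z.2 ∘ₗ B)) ∘ₗ A)) w - (-((-(z.2 ∘ₗ A)) ∘ₗ B)) w
    simp [Module.End.mul_apply]

theorem hatG_mul (g g' h h' : End L W) : hatG g g' * hatG h h' = hatG (g * h) (h' * g') := by
  refine LinearMap.ext fun z => Prod.ext ?_ ?_
  · rfl
  · rfl

theorem hatG_one : hatG (1 : End L W) 1 = 1 := by
  refine LinearMap.ext fun z => Prod.ext ?_ ?_
  · rfl
  · rfl

theorem hatG_conj (g g' A : End L W) : hatG g g' * hat A * hatG g' g = hat (g * A * g') := by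
  refine LinearMap.ext fun z => Prod.ext ?_ ?_
  · rfl
  · refine LinearMap.ext fun w => ?_
    show (-((z.2 ∘ₗ g) ∘ₗ A)) (g' w) = -(z.2 ((g * A * g') w))
    simp [Module.End.mul_apply]

theorem prod_inl {W' ι ι' : Type*} [AddCommGroup W'] [Module L W'] (b : Basis ι L W)
    (b' : Basis ι' L W') (i : ι) : (b.prod b') (Sum.inl i) = (b i, 0) := by
  simp [Basis.prod_apply]

theorem prod_inr {W' ι ι' : Type*} [AddCommGroup W'] [Module L W'] (b : Basis ι L W)
    (b' : Basis ι' L W') (i : ι') : (b.prod b') (Sum.inr i) = (0, b' i) := by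
  simp [Basis.prod_apply]

/-- weights of `W` and of `W ⊕ W^∨` -/
theorem IsWt.hat [FiniteDimensional L W] {m : Lˣ → End L W} {D : End L W} (h : IsWt m D) :
    IsWt (fun u => hatG (m u) (m u⁻¹)) (hat D) := by
  classical
  obtain ⟨ι, hι, b, p, hb⟩ := h
  have := Fintype.ofFinite ι
  refine ⟨ι ⊕ ι, inferInstance, b.prod b.dualBasis, Sum.elim p (fun i => - p i), ?_⟩
  rintro (i | i)
  · refine ⟨fun u => ?_, ?_⟩
    · rw [prod_inl]
      show (m u (b i), (0 : Dual L W) ∘ₗ m u⁻¹) = _
      rw [(hb i).1]
      simp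
    · rw [prod_inl]
      show (D (b i), -((0 : Dual L W) ∘ₗ D)) = _
      rw [(hb i).2]
      simp
  · refine ⟨fun u => ?_, ?_⟩
    · rw [prod_inr]
      show (m u 0, (b.dualBasis i) ∘ₗ m u⁻¹) = _
      rw [map_zero]
      refine Prod.ext ?_ ?_
      · simp
      · refine b.ext fun j => ?_
        show (b.dualBasis i) (m u⁻¹ (b j)) = ((u ^ (-p i) : Lˣ) : L) • (b.dualBasis i) (b j)
        rw [(hb j).1, map_smul, Basis.dualBasis_apply_self]
        split_ifs with hij
        · subst hij
          rw [inv_zpow', smul_eq_mul]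
        · simp
    · rw [prod_inr]
      show (D 0, -((b.dualBasis i) ∘ₗ D)) = _
      rw [map_zero]
      refine Prod.ext ?_ ?_
      · simp
      · refine b.ext fun j => ?_
        show -((b.dualBasis i) (D (b j))) = (((-p i : ℤ)) : L) • (b.dualBasis i) (b j)
        rw [(hb j).2, map_smul, Basis.dualBasis_apply_self]
        split_ifs with hij
        · subst hij
          simp
        · simp

/-- the conjugate of a cocharacter -/
theorem IsWt.conj {m : Lˣ → End L W} {D g g' : End L W} (h : IsWt m D) (h1 : g * g' = 1)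
    (h2 : g' * g = 1) : IsWt (fun u => g * m u * g') (g * D * g') := by
  obtain ⟨ι, hι, b, p, hb⟩ := h
  let e : W ≃ₗ[L] W := LinearEquiv.ofLinearMap g g' h1 h2
  refine ⟨ι, hι, b.map e, p, fun i => ⟨fun u => ?_, ?_⟩⟩
  · rw [Basis.map_apply]
    show g (m u (g' (g (b i)))) = _ • g (b i)
    have h3 : g' (g (b i)) = b i := congrArg (fun f => f (b i)) h2
    rw [h3, (hb i).1, map_smul]
  · rw [Basis.map_apply]
    show g (D (g' (g (b i)))) = _ • g (b i)
    have h3 : g' (g (b i)) = b i := congrArg (fun f => f (b i)) h2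
    rw [h3, (hb i).2, map_smul]

variable {n : ℕ} {t : MultilinearMap L (fun _ : Fin n => W × Dual L W) L}

theorem Inv.mul {Z : Type*} [AddCommGroup Z] [Module L Z]
    {t : MultilinearMap L (fun _ : Fin n => Z) L} {g h : End L Z} (hg : Inv g t) (hh : Inv h t) :
    Inv (g * h) t := fun z => (hg fun k => h (z k)).trans (hh z)

theorem Inv.one {Z : Type*} [AddCommGroup Z] [Module L Z]
    {t : MultilinearMap L (fun _ : Fin n => Z) L} : Inv (1 : End L Z) t := fun _ => rfl

end Pool.Agent.Helper15.MT
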