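import Pool.Agent.Helper15.MT.Blocks
import Pool.Agent.Helper15.MT.Hat

/-! Project MT. Block diagonal endomorphisms. -/

set_option autoImplicit false
set_option linter.unusedSectionVars false

namespace Pool.Agent.Helper15.MT

open Module

section family

variable {L W ι : Type*} [Field L] [AddCommGroup W] [Module L W] [Fintype ι] [DecidableEq ι]
  {V : ι → Type*} [∀ i, AddCommGroup (V i)] [∀ i, Module L (V i)]

/-- the block diagonal endomorphism -/
def diag (e : (∀ i, V i) ≃ₗ[L] W) (x : ∀ i, End L (V i)) : End L W :=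
  e.toLinearMap ∘ₗ (LinearMap.pi fun i => x i ∘ₗ LinearMap.proj i) ∘ₗ e.symm.toLinearMap

variable (e : (∀ i, V i) ≃ₗ[L] W)

theorem diag_apply (x : ∀ i, End L (V i)) (y : ∀ i, V i) :
    diag e x (e y) = e (fun i => x i (y i)) := by
  show e _ = e _
  congr 1
  funext i
  simp

theorem diag_apply' (x : ∀ i, End L (V i)) (w : W) :
    diag e x w = e (fun i => x i (e.symm w i)) := by
  conv_lhs => rw [← e.apply_symm_apply w]
  exact diag_apply e x _

theorem ext_of_e {f g : End L W} (h : ∀ y, f (e y) = g (e y)) : f = g := by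
  refine LinearMap.ext fun w => ?_
  rw [← e.apply_symm_apply w]
  exact h _

theorem diag_add (x y : ∀ i, End L (V i)) : diag e (x + y) = diag e x + diag e y := by
  refine ext_of_e e fun z => ?_
  rw [LinearMap.add_apply, diag_apply, diag_apply, diag_apply, ← map_add]
  rfl

theorem diag_smul (c : L) (x : ∀ i, End L (V i)) : diag e (c • x) = c • diag e x := by
  refine ext_of_e e fun z => ?_
  rw [LinearMap.smul_apply, diag_apply, diag_apply, ← map_smul]
  rfl

theorem diag_sub (x y : ∀ i, End L (V i)) : diag e (x - y) = diag e x - diag e y := by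
  refine ext_of_e e fun z => ?_
  rw [LinearMap.sub_apply, diag_apply, diag_apply, diag_apply, ← map_sub]
  rfl

theorem diag_mul (x y : ∀ i, End L (V i)) : diag e (x * y) = diag e x * diag e y := by
  refine ext_of_e e fun z => ?_
  rw [Module.End.mul_apply, diag_apply, diag_apply, diag_apply]
  rfl

theorem diag_zero : diag e (0 : ∀ i, End L (V i)) = 0 := by
  rw [← zero_smul L (0 : ∀ i, End L (V i)), diag_smul, zero_smul]

/-- the block diagonal endomorphisms which kill the form -/
def LF {n : ℕ} (t : MultilinearMap L (fun _ : Fin n => W × Dual L W) L) :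
    Submodule L (∀ i, End L (V i)) where
  carrier := {x | Der (hat (diag e x)) t}
  add_mem' := fun {x y} hx hy => by
    show Der (hat (diag e (x + y))) t
    rw [diag_add, hat_add]
    exact Der.add hx hy
  zero_mem' := by
    show Der (hat (diag e 0)) t
    rw [diag_zero, hat_zero]
    exact Der.zero
  smul_mem' := fun c x hx => by
    show Der (hat (diag e (c • x))) t
    rw [diag_smul, hat_smul]
    exact Der.smul c hx

theorem mem_LF {n : ℕ} (t : MultilinearMap L (fun _ : Fin n => W × Dual L W) L)
    (x : ∀ i, End L (V i)) : x ∈ LF e t ↔ Der (hat (diag e x)) t := Iff.rfl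

theorem LF_lie {n : ℕ} (t : MultilinearMap L (fun _ : Fin n => W × Dual L W) L) :
    ∀ x ∈ LF e t, ∀ y ∈ LF e t, x * y - y * x ∈ LF e t := by
  intro x hx y hy
  rw [mem_LF, diag_sub, diag_mul, diag_mul, hat_bracket]
  exact Der.bracket hx hy

theorem LF_conj {n : ℕ} (t : MultilinearMap L (fun _ : Fin n => W × Dual L W) L)
    (g g' : ∀ i, End L (V i)) (h1 : ∀ i, g i * g' i = 1)
    (ht : Inv (hatG (diag e g) (diag e g')) t) (x : ∀ i, End L (V i)) (hx : x ∈ LF e t) :
    (fun i => g i * x i * g' i) ∈ LF e t := by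
  rw [mem_LF]
  have e1 : (fun i => g i * x i * g' i) = g * x * g' := rfl
  rw [e1, diag_mul, diag_mul, ← hatG_conj]
  have hd1 : diag e (1 : ∀ i, End L (V i)) = 1 := by
    refine ext_of_e e fun z => ?_
    rw [diag_apply]
    rfl
  have h3 : diag e g * diag e g' = 1 := by
    rw [← diag_mul, ← hd1]
    congr 1
    funext i
    exact h1 i
  refine Der.conj ?_ ht hx
  rw [hatG_mul, h3, hatG_one]

end family

section blocks

variable {L W G : Type*} [Field L] [AddCommGroup W] [Module L W] [Group G]
  {ρ : G →* End L W}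

/-- the subrepresentation -/
def resρ (ρ : G →* End L W) (B : Submodule L W) (hB : GStab ρ B) : G →* End L B where
  toFun g := (ρ g).restrict (hB g)
  map_one' := by
    refine LinearMap.ext fun b => Subtype.ext ?_
    show ρ 1 (b : W) = b
    rw [map_one]
    rfl
  map_mul' g h := by
    refine LinearMap.ext fun b => Subtype.ext ?_
    show ρ (g * h) (b : W) = ρ g (ρ h b)
    rw [map_mul]
    rfl

theorem resρ_apply (B : Submodule L W) (hB : GStab ρ B) (g : G) (b : B) :
    ((resρ ρ B hB g b : B) : W) = ρ g b := rfl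

/-- **The decomposition.** -/
theorem exists_family [FiniteDimensional L W]
    (hc : ∀ S : Submodule L W, GStab ρ S → ∃ S', GStab ρ S' ∧ IsCompl S S') :
    ∃ (s : Finset (Submodule L W)) (_ : ∀ B : s, GSimple ρ B.1)
      (e : (∀ B : s, (B.1 : Submodule L W)) ≃ₗ[L] W), ∀ y, e y = ∑ B : s, ((y B : B.1) : W) := by
  classical
  obtain ⟨s, hs, hind, hsup⟩ := exists_blocks hc
  have h1 : iSupIndep (fun B : s => (B.1 : Submodule L W)) := hind.independent
  have h2 : (⨆ B : s, (B.1 : Submodule L W)) = ⊤ := by
    rw [← hsup, Finset.sup_eq_iSup, iSup_subtype]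
    rfl
  have h3 := DirectSum.isInternal_submodule_of_iSupIndep_of_iSup_eq_top h1 h2
  let e0 : (DirectSum s fun B => (B.1 : Submodule L W)) ≃ₗ[L] W :=
    LinearEquiv.ofBijective (DirectSum.coeLinearMap fun B : s => (B.1 : Submodule L W)) h3
  refine ⟨s, fun B => hs B.1 B.2, (DirectSum.linearEquivFunOnFintype L s
    fun B => (B.1 : Submodule L W)).symm ≪≫ₗ e0, fun y => ?_⟩
  have h4 : y = ∑ B, Pi.single B (y B) := (Finset.univ_sum_single y).symm
  conv_lhs => rw [h4]
  rw [map_sum]
  refine Finset.sum_congr rfl fun B _ => ?_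
  show DirectSum.coeLinearMap (fun B : s => (B.1 : Submodule L W))
    ((DirectSum.linearEquivFunOnFintype L s fun B => (B.1 : Submodule L W)).symm _) = _
  rw [DirectSum.linearEquivFunOnFintype_symm_single, DirectSum.coeLinearMap_lof]

end blocks

end Pool.Agent.Helper15.MT
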