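import Pool.Agent.Helper15.MT.Refl
import Pool.Agent.Helper15.MT.Family

/-! Project MT. The derivative of a cocharacter. -/

set_option autoImplicit false

namespace Pool.Agent.Helper15.MT

open Module Polynomial

variable {L W : Type*} [Field L] [AddCommGroup W] [Module L W]

/-- the unit `2` -/
noncomputable def two (L : Type*) [Field L] [CharZero L] : Lˣ := Units.mk0 2 two_ne_zero

theorem two_zpow [CharZero L] (k : ℤ) : ((two L ^ k : Lˣ) : L) = (2 : L) ^ k := by
  rw [Units.val_zpow_eq_zpow_val]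
  rfl

theorem zpow_two_inj [CharZero L] {a b : ℤ} (h : (2 : L) ^ a = (2 : L) ^ b) : a = b := by
  have h1 : (2 : L) ^ (a - b) = 1 := by
    rw [zpow_sub₀ two_ne_zero, h, div_self (zpow_ne_zero _ two_ne_zero)]
  have := zpow_two_eq_one h1
  omega

/-- weight vectors are eigenvectors of the derivative -/
theorem IsWt.apply_of_weight [CharZero L] {m : Lˣ → End L W} {D : End L W} (h : IsWt m D)
    {w : W} {k : ℤ} (hw : m (two L) w = ((two L ^ k : Lˣ) : L) • w) : D w = (k : L) • w := by
  classical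
  obtain ⟨ι, hι, b, p, hb⟩ := h
  have := Fintype.ofFinite ι
  have h1 : w = ∑ i, b.repr w i • b i := (b.sum_repr w).symm
  have h2 : ∀ i, b.repr w i = 0 ∨ p i = k := by
    have h3 : m (two L) w = ∑ i, (b.repr w i * (2 : L) ^ p i) • b i := by
      conv_lhs => rw [h1]
      rw [map_sum]
      refine Finset.sum_congr rfl fun i _ => ?_
      rw [map_smul, (hb i).1, smul_smul, two_zpow]
    have h4 : ((two L ^ k : Lˣ) : L) • w = ∑ i, (b.repr w i * (2 : L) ^ k) • b i := by
      conv_lhs => rw [h1]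
      rw [Finset.smul_sum]
      refine Finset.sum_congr rfl fun i _ => ?_
      rw [smul_smul, two_zpow, mul_comm]
    intro i
    have h5 : (∑ i, (b.repr w i * (2 : L) ^ p i) • b i) = ∑ i, (b.repr w i * (2 : L) ^ k) • b i := by
      rw [← h3, ← h4, hw]
    have h6 := congrArg (fun z => b.repr z i) h5
    simp only [map_sum, map_smul, Finsupp.coe_finsetSum, Finset.sum_apply, Basis.repr_self,
      Finsupp.smul_single, smul_eq_mul, mul_one] at h6
    rw [Finset.sum_eq_single i (fun j _ hj => by rw [Finsupp.single_eq_of_ne hj.symm])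
      (fun h => absurd (Finset.mem_univ i) h), Finset.sum_eq_single i
      (fun j _ hj => by rw [Finsupp.single_eq_of_ne hj.symm])
      (fun h => absurd (Finset.mem_univ i) h), Finsupp.single_eq_same,
      Finsupp.single_eq_same] at h6
    by_cases h0 : b.repr w i = 0
    · exact Or.inl h0
    · exact Or.inr (zpow_two_inj (mul_left_cancel₀ h0 h6))
  conv_lhs => rw [h1]
  conv_rhs => rw [h1]
  rw [map_sum, Finset.smul_sum]
  refine Finset.sum_congr rfl fun i _ => ?_
  rw [map_smul, (hb i).2, smul_comm]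
  rcases h2 i with h | h
  · rw [h, zero_smul, smul_zero, smul_zero]
  · rw [h]

/-- the derivative is a polynomial in the automorphism `m 2` -/
theorem IsWt.exists_poly [CharZero L] {m : Lˣ → End L W} {D : End L W} (h : IsWt m D) :
    ∃ f : L[X], D = aeval (m (two L)) f := by
  classical
  obtain ⟨ι, hι, b, p, hb⟩ := h
  have := Fintype.ofFinite ι
  let s : Finset ℤ := Finset.univ.image p
  have hinj : Set.InjOn (fun k : ℤ => (2 : L) ^ k) s := fun a _ b _ h => zpow_two_inj h
  refine ⟨Lagrange.interpolate s (fun k : ℤ => (2 : L) ^ k) (fun k => (k : L)), b.ext fun i => ?_⟩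
  have hi : p i ∈ s := Finset.mem_image_of_mem _ (Finset.mem_univ i)
  have h1 : (m (two L)).HasEigenvector ((2 : L) ^ p i) (b i) := by
    refine ⟨?_, b.ne_zero i⟩
    rw [Module.End.mem_eigenspace_iff, (hb i).1, two_zpow]
  rw [Module.End.aeval_apply_of_hasEigenvector h1, (hb i).2]
  congr 1
  exact (Lagrange.eval_interpolate_at_node (r := fun k : ℤ => (k : L)) hinj hi).symm

theorem aeval_stable {A : End L W} {S : Submodule L W} (h : ∀ s ∈ S, A s ∈ S) (f : L[X]) :
    ∀ s ∈ S, aeval A f s ∈ S := by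
  induction f using Polynomial.induction_on with
  | C a =>
    intro s hs
    rw [aeval_C, Module.algebraMap_end_apply]
    exact S.smul_mem _ hs
  | add p q hp hq =>
    intro s hs
    rw [map_add, LinearMap.add_apply]
    exact S.add_mem (hp s hs) (hq s hs)
  | monomial n a ih =>
    intro s hs
    have h1 : (C a * X ^ (n + 1) : L[X]) = C a * X ^ n * X := by ring
    rw [h1, map_mul, aeval_X, Module.End.mul_apply]
    exact ih _ (h s hs)

theorem IsWt.stable [CharZero L] {m : Lˣ → End L W} {D : End L W} (h : IsWt m D)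
    {S : Submodule L W} (hS : ∀ u, ∀ s ∈ S, m u s ∈ S) : ∀ s ∈ S, D s ∈ S := by
  obtain ⟨f, rfl⟩ := h.exists_poly
  exact aeval_stable (hS _) f

/-- the derivative is diagonalisable -/
theorem IsWt.diag {m : Lˣ → End L W} {D : End L W} (h : IsWt m D) :
    ⨆ μ : L, Module.End.eigenspace D μ = ⊤ := by
  obtain ⟨ι, hι, b, p, hb⟩ := h
  rw [eq_top_iff, ← b.span_eq, Submodule.span_le]
  rintro _ ⟨i, rfl⟩
  refine (le_iSup (fun μ : L => Module.End.eigenspace D μ) (p i : L)) ?_
  rw [Module.End.mem_eigenspace_iff, (hb i).2]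

theorem diag_restrict [FiniteDimensional L W] {D : End L W} (h : ⨆ μ : L, Module.End.eigenspace D μ = ⊤)
    {S : Submodule L W} (hS : ∀ s ∈ S, D s ∈ S) :
    ⨆ μ : L, Module.End.eigenspace (D.restrict hS) μ = ⊤ :=
  Module.End.genEigenspace_restrict_eq_top hS h

/-- a basis of weight vectors -/
theorem isWt_of_iSup [FiniteDimensional L W] [CharZero L] (m : Lˣ → End L W)
    (h : ⨆ k : ℤ, (⨅ u : Lˣ, Module.End.eigenspace (m u) ((u ^ k : Lˣ) : L)) = ⊤) :
    ∃ D, IsWt m D := by
  classical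
  obtain ⟨s, hs⟩ : ∃ s : Set W, ∀ w, w ∈ s ↔ ∃ k : ℤ, ∀ u : Lˣ, m u w = ((u ^ k : Lˣ) : L) • w :=
    ⟨{w | ∃ k : ℤ, ∀ u : Lˣ, m u w = ((u ^ k : Lˣ) : L) • w}, fun _ => Iff.rfl⟩
  have h1 : ⊤ ≤ Submodule.span L s := by
    rw [← h]
    refine iSup_le fun k w hw => Submodule.subset_span ((hs w).2 ⟨k, fun u => ?_⟩)
    rw [Submodule.mem_iInf] at hw
    exact Module.End.mem_eigenspace_iff.1 (hw u)
  let b := Basis.ofSpan h1
  have hfin : Finite _ := Module.Finite.finite_basis b
  obtain ⟨n, ⟨e⟩⟩ := @Finite.exists_equiv_fin _ hfin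
  have hb : ∀ i, ∃ k : ℤ, ∀ u : Lˣ, m u (b i) = ((u ^ k : Lˣ) : L) • b i := fun i =>
    (hs _).1 (Basis.ofSpan_subset h1 ⟨i, rfl⟩)
  choose k hk using hb
  let b' := b.reindex e
  refine ⟨b'.constr L fun i => ((k (e.symm i) : ℤ) : L) • b' i, Fin n, inferInstance, b',
    fun i => k (e.symm i), fun i => ⟨fun u => ?_, ?_⟩⟩
  · have h2 : b' i = b (e.symm i) := Basis.reindex_apply _ _ _
    rw [h2]
    exact hk _ u
  · rw [Basis.constr_basis]

end Pool.Agent.Helper15.MT
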