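import Pool.Agent.Helper15.MT.Refs
import Pool.Agent.Helper75.MT.Pair

/-! Project MT. Families of blocks. -/

set_option autoImplicit false
set_option linter.unusedSectionVars false

namespace Pool.Agent.Helper15.MT

open Module

section small

variable {L V : Type*} [Field L] [AddCommGroup V] [Module L V]

theorem scalar_of_small [FiniteDimensional L V] (h : finrank L V ≤ 1) (x : End L V) :
    ∃ c : L, x = c • (1 : End L V) := by
  obtain ⟨v, hv⟩ := finrank_le_one_iff.1 h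
  obtain ⟨c, hc⟩ := hv (x v)
  refine ⟨c, LinearMap.ext fun w => ?_⟩
  obtain ⟨d, rfl⟩ := hv w
  rw [map_smul, ← hc, LinearMap.smul_apply, Module.End.one_apply, smul_comm]

theorem exists_not_scalar [FiniteDimensional L V] (h : 2 ≤ finrank L V) :
    ∃ x : End L V, ∀ c : L, x ≠ c • 1 := by
  classical
  have hV : Nontrivial V := Module.nontrivial_of_finrank_pos (R := L) (by omega)
  obtain ⟨v, hv⟩ := exists_ne (0 : V)
  obtain ⟨φ, hφ⟩ : ∃ φ : Dual L V, φ v ≠ 0 := by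
    by_contra hcon
    push Not at hcon
    exact hv ((Module.forall_dual_apply_eq_zero_iff L v).1 hcon)
  refine ⟨rk v φ, fun c hc => ?_⟩
  have h1 : finrank L V ≤ 1 := by
    refine finrank_le_one v fun w => ?_
    have h2 := congrArg (fun f => f v) hc
    simp only [rk_apply, LinearMap.smul_apply, Module.End.one_apply] at h2
    have h3 : c ≠ 0 := by
      rintro rfl
      rw [zero_smul] at h2
      exact hv ((smul_eq_zero.1 h2).resolve_left hφ)
    have h4 := congrArg (fun f => f w) hc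
    simp only [rk_apply, LinearMap.smul_apply, Module.End.one_apply] at h4
    exact ⟨c⁻¹ * φ w, by rw [mul_smul, h4, smul_smul, inv_mul_cancel₀ h3, one_smul]⟩
  omega

theorem zero_of_small [CharZero L] [FiniteDimensional L V] (h : finrank L V ≤ 1) (x : End L V)
    (hx : LinearMap.trace L V x = 0) : x = 0 := by
  obtain ⟨c, rfl⟩ := scalar_of_small h x
  rw [map_smul, LinearMap.trace_one, smul_eq_mul] at hx
  rcases mul_eq_zero.1 hx with h1 | h1
  · rw [h1, zero_smul]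
  · have h2 : finrank L V = 0 := by exact_mod_cast h1
    have h3 : Subsingleton V := Module.finrank_zero_iff.1 h2
    exact LinearMap.ext fun v => Subsingleton.elim _ _

theorem br_scalar (x y : End L V) (c d : L) :
    (x + c • 1) * (y + d • 1) - (y + d • 1) * (x + c • 1) = x * y - y * x := by
  simp only [add_mul, mul_add, smul_mul_assoc, mul_smul_comm, one_mul, mul_one, smul_add,
    smul_smul]
  rw [mul_comm c d]
  abel

theorem shift_scalar (x : End L V) (c d : L) : c • x + (-(c * d)) • 1 = c • (x - d • 1) := by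
  module

end small

theorem eigenspace_shift {L : Type*} [Field L] {V : Type*} [AddCommGroup V] [Module L V] {D : End L V}
    (h : ⨆ μ : L, Module.End.eigenspace D μ = ⊤) (c d : L) :
    ⨆ μ : L, Module.End.eigenspace (c • (D - d • 1)) μ = ⊤ := by
  rw [eq_top_iff, ← h]
  refine iSup_le fun μ => ?_
  refine le_trans (fun w hw => ?_) (le_iSup _ (c * (μ - d)))
  rw [Module.End.mem_eigenspace_iff] at hw ⊢
  have h1 : (c • (D - d • 1)) w = c • (D w - d • w) := rfl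
  rw [h1, hw, ← sub_smul, smul_smul]

section fam

variable {L ι : Type} [Field L] [CharZero L] {V : ι → Type} [∀ i, AddCommGroup (V i)]
  [∀ i, Module L (V i)] [∀ i, FiniteDimensional L (V i)]

/-- the `i`-th components, and scalars -/
def comp1 (𝔳 : Submodule L (∀ i, End L (V i))) (i : ι) : Submodule L (End L (V i)) where
  carrier := {y | ∃ x ∈ 𝔳, ∃ c : L, x i + c • 1 = y}
  add_mem' := by
    rintro _ _ ⟨x, hx, c, rfl⟩ ⟨y, hy, d, rfl⟩
    exact ⟨x + y, 𝔳.add_mem hx hy, c + d, by rw [Pi.add_apply, add_smul]; abel⟩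
  zero_mem' := ⟨0, 𝔳.zero_mem, 0, by rw [Pi.zero_apply, zero_smul, add_zero]⟩
  smul_mem' := by
    rintro a _ ⟨x, hx, c, rfl⟩
    exact ⟨a • x, 𝔳.smul_mem a hx, a * c, by rw [Pi.smul_apply, smul_add, smul_smul]⟩

theorem comp1_lie {𝔳 : Submodule L (∀ i, End L (V i))}
    (hlie : ∀ x ∈ 𝔳, ∀ y ∈ 𝔳, x * y - y * x ∈ 𝔳) (i : ι) : IsLie (comp1 𝔳 i) := by
  rintro _ ⟨x, hx, c, rfl⟩ _ ⟨y, hy, d, rfl⟩
  refine ⟨_, hlie x hx y hy, 0, ?_⟩
  rw [zero_smul, add_zero, br_scalar]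
  rfl

/-- the pairs of components, and scalars -/
def comp2 (𝔳 : Submodule L (∀ i, End L (V i))) (i j : ι) :
    Submodule L (End L (V i) × End L (V j)) where
  carrier := {y | ∃ x ∈ 𝔳, ∃ c d : L, (x i + c • 1, x j + d • 1) = y}
  add_mem' := by
    rintro _ _ ⟨x, hx, c, d, rfl⟩ ⟨x', hx', c', d', rfl⟩
    refine ⟨x + x', 𝔳.add_mem hx hx', c + c', d + d', Prod.ext ?_ ?_⟩
    · show (x + x') i + (c + c') • 1 = x i + c • 1 + (x' i + c' • 1)
      rw [Pi.add_apply, add_smul]; abel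
    · show (x + x') j + (d + d') • 1 = x j + d • 1 + (x' j + d' • 1)
      rw [Pi.add_apply, add_smul]; abel
  zero_mem' := by
    refine ⟨0, 𝔳.zero_mem, 0, 0, Prod.ext ?_ ?_⟩
    · show (0 : ∀ i, End L (V i)) i + (0 : L) • 1 = 0
      rw [Pi.zero_apply, zero_smul, add_zero]
    · show (0 : ∀ i, End L (V i)) j + (0 : L) • 1 = 0
      rw [Pi.zero_apply, zero_smul, add_zero]
  smul_mem' := by
    rintro a _ ⟨x, hx, c, d, rfl⟩
    refine ⟨a • x, 𝔳.smul_mem a hx, a * c, a * d, Prod.ext ?_ ?_⟩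
    · show (a • x) i + (a * c) • 1 = a • (x i + c • 1)
      rw [Pi.smul_apply, smul_add, smul_smul]
    · show (a • x) j + (a * d) • 1 = a • (x j + d • 1)
      rw [Pi.smul_apply, smul_add, smul_smul]

theorem comp2_lie {𝔳 : Submodule L (∀ i, End L (V i))}
    (hlie : ∀ x ∈ 𝔳, ∀ y ∈ 𝔳, x * y - y * x ∈ 𝔳) (i j : ι) :
    ∀ x ∈ comp2 𝔳 i j, ∀ y ∈ comp2 𝔳 i j, x * y - y * x ∈ comp2 𝔳 i j := by
  rintro _ ⟨x, hx, c, d, rfl⟩ _ ⟨x', hx', c', d', rfl⟩
  refine ⟨_, hlie x hx x' hx', 0, 0, Prod.ext ?_ ?_⟩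
  · show (x * x' - x' * x) i + (0 : L) • 1 =
      (x i + c • 1) * (x' i + c' • 1) - (x' i + c' • 1) * (x i + c • 1)
    rw [br_scalar, zero_smul, add_zero]
    rfl
  · show (x * x' - x' * x) j + (0 : L) • 1 =
      (x j + d • 1) * (x' j + d' • 1) - (x' j + d' • 1) * (x j + d • 1)
    rw [br_scalar, zero_smul, add_zero]
    rfl

/-- **Links.** -/
theorem fam_link (𝔳 : Submodule L (∀ i, End L (V i)))
    (hlie : ∀ x ∈ 𝔳, ∀ y ∈ 𝔳, x * y - y * x ∈ 𝔳)
    (hfull : ∀ i, 2 ≤ finrank L (V i) → ∀ y : End L (V i), ∃ x ∈ 𝔳, ∃ c : L, x i + c • 1 = y)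
    (i j : ι) (hi : 2 ≤ finrank L (V i)) (D : ∀ i, End L (V i)) (hD : D ∈ 𝔳)
    (hdg : ⨆ μ : L, Module.End.eigenspace (D j) μ = ⊤) (v : V i) (φ : Dual L (V i)) (c d : L)
    (hv : φ v = 1) (hc : c • (D i - d • 1) = rk v φ)
    (hsep : ∀ x ∈ 𝔳, (∃ c : L, x j = c • 1) → ∃ c : L, x i = c • 1) :
    (∃ T : V i ≃ₗ[L] V j, ∀ x ∈ 𝔳, ∃ c : L,
      x j ∘ₗ T.toLinearMap - T.toLinearMap ∘ₗ x i = c • T.toLinearMap) ∨
    (∃ T : V i ≃ₗ[L] Dual L (V j), ∀ x ∈ 𝔳, ∃ c : L,
      (x j).dualMap ∘ₗ T.toLinearMap + T.toLinearMap ∘ₗ x i = c • T.toLinearMap) := by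
  have hj : 2 ≤ finrank L (V j) := by
    by_contra hC
    obtain ⟨y, hy⟩ := exists_not_scalar hi
    obtain ⟨x, hx, c, rfl⟩ := hfull i hi y
    obtain ⟨d, hd⟩ := hsep x hx (scalar_of_small (by omega) _)
    exact hy (d + c) (by rw [hd, add_smul])
  have hp : ∀ x ∈ 𝔳, (x i, x j) ∈ comp2 𝔳 i j := fun x hx =>
    ⟨x, hx, 0, 0, by rw [zero_smul, zero_smul, add_zero, add_zero]⟩
  have hres := Pool.Agent.Helper75.MT.pair (comp2 𝔳 i j) (comp2_lie hlie i j)
    ⟨0, 𝔳.zero_mem, 1, 0, by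
      rw [Pi.zero_apply, Pi.zero_apply, zero_add, zero_add, one_smul, zero_smul]⟩
    ⟨0, 𝔳.zero_mem, 0, 1, by
      rw [Pi.zero_apply, Pi.zero_apply, zero_add, zero_add, one_smul, zero_smul]⟩
    (fun y => by
      obtain ⟨x, hx, c, rfl⟩ := hfull i hi y
      exact ⟨x j, x, hx, c, 0, by rw [zero_smul, add_zero]⟩)
    (fun y => by
      obtain ⟨x, hx, c, rfl⟩ := hfull j hj y
      exact ⟨x i, x, hx, 0, c, by rw [zero_smul, add_zero]⟩)
    (by
      rintro _ ⟨x, hx, c, d, rfl⟩ ⟨k, hk⟩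
      obtain ⟨l, hl⟩ := hsep x hx ⟨k - d, by
        have hk' : x j + d • 1 = k • 1 := hk
        rw [sub_smul, ← hk']; abel⟩
      exact ⟨l + c, by
        show x i + c • 1 = _
        rw [hl, add_smul]⟩) v φ hv hi (c • (D j - d • 1))
    (by
      refine ⟨_, 𝔳.smul_mem c hD, -(c * d), -(c * d), Prod.ext ?_ ?_⟩
      · show (c • D) i + (-(c * d)) • 1 = φ.smulRight v
        rw [show φ.smulRight v = rk v φ from rfl, ← hc]
        exact shift_scalar _ c d
      · exact shift_scalar _ c d)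
    (eigenspace_shift hdg c d)
  rcases hres with ⟨T, hT⟩ | ⟨T, hT⟩
  · exact Or.inl ⟨T, fun x hx => hT (x i, x j) (hp x hx)⟩
  · exact Or.inr ⟨T, fun x hx => hT (x i, x j) (hp x hx)⟩

end fam

end Pool.Agent.Helper15.MT
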