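import Pool.Agent.Helper15.MT.Fam

/-! Project MT. Families of blocks: conjugates of derivatives are compatible with the links. -/

set_option autoImplicit false
set_option linter.unusedSectionVars false

namespace Pool.Agent.Helper15.MT

open Module

variable {L ι G W : Type} [Field L] [CharZero L] [Group G] {V : ι → Type}
  [∀ i, AddCommGroup (V i)] [∀ i, Module L (V i)] [∀ i, FiniteDimensional L (V i)]
  [AddCommGroup W] [Module L W] [Fintype ι] [DecidableEq ι]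

/-- The data: `W` is the product of the representations `V i`. -/
structure FamData (ρ : G →* End L W) (r : ∀ i, G →* End L (V i)) (e : (∀ i, V i) ≃ₗ[L] W)
    (J : Subgroup G) (𝔳 : Submodule L (∀ i, End L (V i))) : Prop where
  equiv : ∀ g w i, e.symm (ρ g w) i = r i g (e.symm w i)
  full : ∀ i, 2 ≤ finrank L (V i) → ∀ y : End L (V i), ∃ x ∈ 𝔳, ∃ c : L, x i + c • 1 = y
  conj : ∀ g ∈ J, ∀ x ∈ 𝔳, (fun i => r i g * x i * r i g⁻¹) ∈ 𝔳
  semi : ∀ T : End L W, (∀ g ∈ J, ∃ c : L, ∀ x, ρ g (T x) = c • T (ρ g x)) →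
      ∀ g, ∃ c : L, ∀ x, ρ g (T x) = c • T (ρ g x)
  form : ∀ β : W →ₗ[L] Dual L W,
      (∀ g ∈ J, ∃ c : L, ∀ x y, β (ρ g x) (ρ g y) = c * β x y) →
      ∀ g, ∃ c : L, ∀ x y, β (ρ g x) (ρ g y) = c * β x y

variable {ρ : G →* End L W} {r : ∀ i, G →* End L (V i)} {e : (∀ i, V i) ≃ₗ[L] W}
  {J : Subgroup G} {𝔳 : Submodule L (∀ i, End L (V i))}

theorem r_mul_inv (r : G →* End L W) (g : G) : r g * r g⁻¹ = 1 := by
  rw [← map_mul, mul_inv_cancel, map_one]

theorem r_inv_mul (r : G →* End L W) (g : G) : r g⁻¹ * r g = 1 := by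
  rw [← map_mul, inv_mul_cancel, map_one]

theorem FamData.equiv_single (F : FamData ρ r e J 𝔳) (g : G) (i : ι) (v : V i) :
    ρ g (e (Pi.single i v)) = e (Pi.single i (r i g v)) := by
  apply e.symm.injective
  rw [e.symm_apply_apply]
  funext j
  rw [F.equiv, e.symm_apply_apply]
  by_cases h : j = i
  · subst h
    rw [Pi.single_eq_same, Pi.single_eq_same]
  · rw [Pi.single_eq_of_ne h, Pi.single_eq_of_ne h, map_zero]

/-- a link which is semi-invariant for `J` is semi-invariant for `G` -/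
theorem FamData.semi' (F : FamData ρ r e J 𝔳) (i j : ι) (T : V i →ₗ[L] V j)
    (hT : ∀ g ∈ J, ∃ s : L, ∀ v, r j g (T v) = s • T (r i g v)) (g : G) :
    ∃ s : L, ∀ v, r j g (T v) = s • T (r i g v) := by
  let T' : End L W := e.toLinearMap ∘ₗ LinearMap.single L V j ∘ₗ T ∘ₗ LinearMap.proj i ∘ₗ
    e.symm.toLinearMap
  have hT' : ∀ w, T' w = e (Pi.single j (T (e.symm w i))) := fun _ => rfl
  obtain ⟨s, hs⟩ := F.semi T' (fun g hg => by
    obtain ⟨s, hs⟩ := hT g hg
    refine ⟨s, fun w => ?_⟩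
    rw [hT', hT', F.equiv_single, hs, F.equiv, Pi.single_smul]
    exact e.map_smul _ _) g
  refine ⟨s, fun v => ?_⟩
  have h1 := hs (e (Pi.single i v))
  rw [hT', hT', F.equiv_single, F.equiv_single, e.symm_apply_apply, e.symm_apply_apply,
    Pi.single_eq_same, Pi.single_eq_same, ← map_smul] at h1
  have h2 := congrFun (e.injective h1) j
  rw [Pi.smul_apply, Pi.single_eq_same, Pi.single_eq_same] at h2
  exact h2

/-- a form which is semi-invariant for `J` is semi-invariant for `G` -/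
theorem FamData.form' (F : FamData ρ r e J 𝔳) (i j : ι) (T : V i →ₗ[L] Dual L (V j))
    (hT : ∀ g ∈ J, ∃ s : L, ∀ v w, T (r i g v) (r j g w) = s * T v w) (g : G) :
    ∃ s : L, ∀ v w, T (r i g v) (r j g w) = s * T v w := by
  let T' : W →ₗ[L] Dual L W := (LinearMap.proj j ∘ₗ e.symm.toLinearMap).dualMap ∘ₗ T ∘ₗ
    LinearMap.proj i ∘ₗ e.symm.toLinearMap
  have hT' : ∀ w w', T' w w' = T (e.symm w i) (e.symm w' j) := fun _ _ => rfl
  obtain ⟨s, hs⟩ := F.form T' (fun g hg => by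
    obtain ⟨s, hs⟩ := hT g hg
    refine ⟨s, fun w w' => ?_⟩
    rw [hT', hT', F.equiv, F.equiv, hs]) g
  refine ⟨s, fun v w => ?_⟩
  have h1 := hs (e (Pi.single i v)) (e (Pi.single j w))
  rw [hT', hT', F.equiv_single, F.equiv_single, e.symm_apply_apply, e.symm_apply_apply,
    e.symm_apply_apply, e.symm_apply_apply, Pi.single_eq_same, Pi.single_eq_same,
    Pi.single_eq_same, Pi.single_eq_same] at h1
  exact h1

/-- **Compatibility with an isomorphism.** -/
theorem FamData.hX (F : FamData ρ r e J 𝔳) {D : ∀ i, End L (V i)} (hD : D ∈ 𝔳) (g : G) (i j : ι)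
    (hi : 2 ≤ finrank L (V i)) (T : V i ≃ₗ[L] V j)
    (hT : ∀ x ∈ 𝔳, ∃ c : L,
      x j ∘ₗ T.toLinearMap - T.toLinearMap ∘ₗ x i = c • T.toLinearMap) :
    (r j g * D j * r j g⁻¹ - D j) ∘ₗ T.toLinearMap =
      T.toLinearMap ∘ₗ (r i g * D i * r i g⁻¹ - D i) := by
  have h1 : ∀ g ∈ J, ∃ s : L, ∀ v, r j g (T v) = s • T (r i g v) := by
    intro g hg
    refine link_semi (by omega) {y | ∃ x ∈ 𝔳, (x i, x j) = y} (fun y => ?_) T ?_ (r i g) (r i g⁻¹)
      (r j g) (r j g⁻¹) (r_mul_inv _ g) (r_inv_mul _ g) (r_mul_inv _ g) (r_inv_mul _ g) ?_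
    · obtain ⟨x, hx, c, rfl⟩ := F.full i hi y
      exact ⟨_, ⟨x, hx, rfl⟩, c, rfl⟩
    · rintro _ ⟨x, hx, rfl⟩
      exact hT x hx
    · rintro _ ⟨x, hx, rfl⟩
      have h2 := F.conj g⁻¹ (J.inv_mem hg) x hx
      simp only [inv_inv] at h2
      exact ⟨_, h2, rfl⟩
  obtain ⟨s, hs⟩ := F.semi' i j T.toLinearMap h1 g
  obtain ⟨k, hk⟩ := hT D hD
  refine LinearMap.ext fun v => ?_
  exact link_conj T (D i) (D j) k (fun v => LinearMap.congr_fun hk v) (r i g) (r i g⁻¹) (r j g)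
    (r j g⁻¹) (r_mul_inv _ g) (r_mul_inv _ g) (r_inv_mul _ g) s hs v

theorem dualMap_mul (x y : End L W) : (x * y).dualMap = y.dualMap ∘ₗ x.dualMap := rfl

/-- **Compatibility with a form.** -/
theorem FamData.hX' (F : FamData ρ r e J 𝔳) {D : ∀ i, End L (V i)} (hD : D ∈ 𝔳) (g : G)
    (i j : ι) (hi : 2 ≤ finrank L (V i)) (T : V i ≃ₗ[L] Dual L (V j))
    (hT : ∀ x ∈ 𝔳, ∃ c : L,
      (x j).dualMap ∘ₗ T.toLinearMap + T.toLinearMap ∘ₗ x i = c • T.toLinearMap) :
    (r j g * D j * r j g⁻¹ - D j).dualMap ∘ₗ T.toLinearMap +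
      T.toLinearMap ∘ₗ (r i g * D i * r i g⁻¹ - D i) = 0 := by
  have hV : Nontrivial (V i) := Module.nontrivial_of_finrank_pos (R := L) (by omega)
  obtain ⟨v₀, hv₀⟩ := exists_ne (0 : V i)
  obtain ⟨w₀, hw₀⟩ : ∃ w, T v₀ w ≠ 0 := by
    by_contra hcon
    push Not at hcon
    exact hv₀ (T.injective ((LinearMap.ext hcon).trans (map_zero T).symm))
  have e1 : ∀ (j : ι) (g : G) (w : V j), r j g (r j g⁻¹ w) = w := fun j g w =>
    congrArg (fun f => f w) (r_mul_inv (r j) g)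
  have e2 : ∀ (j : ι) (g : G) (w : V j), r j g⁻¹ (r j g w) = w := fun j g w =>
    congrArg (fun f => f w) (r_inv_mul (r j) g)
  have hb : ∀ g, (r j g⁻¹).dualMap * (r j g).dualMap = 1 := by
    intro g
    refine LinearMap.ext fun φ => LinearMap.ext fun w => ?_
    show φ (r j g (r j g⁻¹ w)) = φ w
    rw [e1]
  have hb' : ∀ g, (r j g).dualMap * (r j g⁻¹).dualMap = 1 := by
    intro g
    refine LinearMap.ext fun φ => LinearMap.ext fun w => ?_
    show φ (r j g⁻¹ (r j g w)) = φ w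
    rw [e2]
  have h1 : ∀ g ∈ J, ∃ s : L, ∀ v, (r j g⁻¹).dualMap (T v) = s • T (r i g v) := by
    intro g hg
    refine link_semi (by omega) {y | ∃ x ∈ 𝔳, (x i, -(x j).dualMap) = y} (fun y => ?_) T ?_
      (r i g) (r i g⁻¹) (r j g⁻¹).dualMap (r j g).dualMap (r_mul_inv _ g) (r_inv_mul _ g) (hb g)
      (hb' g) ?_
    · obtain ⟨x, hx, c, rfl⟩ := F.full i hi y
      exact ⟨_, ⟨x, hx, rfl⟩, c, rfl⟩
    · rintro _ ⟨x, hx, rfl⟩
      obtain ⟨c, hc⟩ := hT x hx
      refine ⟨-c, LinearMap.ext fun v => LinearMap.ext fun w => ?_⟩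
      have h' : T v (x j w) + T (x i v) w = c * T v w :=
        LinearMap.congr_fun (LinearMap.congr_fun hc v) w
      show -(T v (x j w)) - T (x i v) w = (-c) * T v w
      linear_combination -h'
    · rintro _ ⟨x, hx, rfl⟩
      have h2 := F.conj g⁻¹ (J.inv_mem hg) x hx
      simp only [inv_inv] at h2
      refine ⟨_, h2, Prod.ext rfl ?_⟩
      refine LinearMap.ext fun φ => LinearMap.ext fun w => ?_
      rfl
  have h2 : ∀ g ∈ J, ∃ s : L, ∀ v w, T (r i g v) (r j g w) = s * T v w := by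
    intro g hg
    obtain ⟨s, hs⟩ := h1 g hg
    have h3 : ∀ v w, T v w = s * T (r i g v) (r j g w) := by
      intro v w
      have h4 := congrArg (fun f => f (r j g w)) (hs v)
      have h5 : ((r j g⁻¹).dualMap (T v)) (r j g w) = T v w := by
        show T v (r j g⁻¹ (r j g w)) = _
        rw [e2]
      rw [← h5]
      exact h4
    have hs0 : s ≠ 0 := by
      rintro rfl
      exact hw₀ (by rw [h3, zero_mul])
    refine ⟨s⁻¹, fun v w => ?_⟩
    rw [h3 v w, ← mul_assoc, inv_mul_cancel₀ hs0, one_mul]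
  obtain ⟨c, hc⟩ := F.form' i j T.toLinearMap h2 g
  have hc' : ∀ v w, T (r i g v) (r j g w) = c * T v w := hc
  have hc0 : c ≠ 0 := by
    rintro rfl
    have h3 := hc' (r i g⁻¹ v₀) (r j g⁻¹ w₀)
    rw [e1, e1, zero_mul] at h3
    exact hw₀ h3
  have hs : ∀ v, (r j g⁻¹).dualMap (T v) = c⁻¹ • T (r i g v) := by
    intro v
    refine LinearMap.ext fun w => ?_
    show T v (r j g⁻¹ w) = c⁻¹ * T (r i g v) w
    have h3 := hc' v (r j g⁻¹ w)
    rw [e1] at h3
    rw [h3, ← mul_assoc, inv_mul_cancel₀ hc0, one_mul]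
  obtain ⟨k, hk⟩ := hT D hD
  refine LinearMap.ext fun v => ?_
  have h4 := link_conj T (D i) (-(D j).dualMap) (-k) (fun v => LinearMap.ext fun w => by
    have h' : T v (D j w) + T (D i v) w = k * T v w :=
      LinearMap.congr_fun (LinearMap.congr_fun hk v) w
    show -(T v (D j w)) - T (D i v) w = (-k) * T v w
    linear_combination -h') (r i g) (r i g⁻¹) (r j g⁻¹).dualMap (r j g).dualMap (r_mul_inv _ g) (hb g)
    (hb' g) _ hs v
  have h5 : ((r j g⁻¹).dualMap * (-(D j).dualMap) * (r j g).dualMap - -(D j).dualMap) (T v) =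
      -((r j g * D j * r j g⁻¹ - D j).dualMap (T v)) := by
    refine LinearMap.ext fun w => ?_
    show -(T v (r j g (D j (r j g⁻¹ w)))) - -(T v (D j w)) =
      -(T v ((r j g (D j (r j g⁻¹ w))) - D j w))
    rw [map_sub]
    abel
  rw [h5] at h4
  show (r j g * D j * r j g⁻¹ - D j).dualMap (T v) + T ((r i g * D i * r i g⁻¹ - D i) v) = 0
  rw [← h4, add_neg_cancel]

end Pool.Agent.Helper15.MT
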