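import Pool.Agent.Helper15.V7.RowB
import Pool.Agent.Helper15.QM.Defs
import Pool.Agent.Helper15.GD.Base

/-! Project MT. The second cohomology of an abelian cover is contained, up to characters, in the
first cohomology of finitely many varieties. -/

set_option autoImplicit false

namespace Pool.Agent.Helper15.MT

open IntermediateField TensorProduct Pool.Agent.Helper75.QC Pool.Agent.Helper75.WC
  Pool.Agent.Helper15.QM Pool.Agent.Helper15.GD Pool.Agent.Helper48.TT Pool.Agent.Helper15.V7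

/-- the character of an eigenvector -/
theorem exists_char {L G V : Type} [Field L] [Group G] [AddCommGroup V] [Module L V]
    (ρ : G →* (V →ₗ[L] V)) (z : V) (hz : z ≠ 0) (h : ∀ g, ∃ c : L, ρ g z = c • z) :
    ∃ α : G →* L, ∀ g, ρ g z = α g • z := by
  choose α hα using h
  refine ⟨⟨⟨α, ?_⟩, fun g h => ?_⟩, hα⟩
  · have h1 := hα 1
    rw [map_one, Module.End.one_apply] at h1
    by_contra hne
    have h2 : (α 1 - 1) • z = 0 := by rw [sub_smul, one_smul, ← h1, sub_self]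
    exact hz ((smul_eq_zero.1 h2).resolve_left (sub_ne_zero.2 hne))
  · have h1 := hα (g * h)
    rw [map_mul, Module.End.mul_apply, hα, map_smul, hα, smul_smul] at h1
    by_contra hne
    have h2 : (α (g * h) - α g * α h) • z = 0 := by
      rw [sub_smul, ← h1, mul_comm (α h), sub_self]
    exact hz ((smul_eq_zero.1 h2).resolve_left (sub_ne_zero.2 hne))

variable {Ω L G : Type} [Field Ω] [Field L] [Group G] (T : MotivicTheory Ω L G)

/-- Stable subspaces of `H 1` have stable complements. -/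
def SSimple : Prop := ∀ (D : Type) [Field D] [Algebra Ω D], (⊤ : IntermediateField Ω D).FG →
  ∀ P : Submodule L (T.H 1 D), (∀ γ, ∀ t ∈ P, T.act 1 D γ t ∈ P) →
    ∃ Q : Submodule L (T.H 1 D), (∀ γ, ∀ t ∈ Q, T.act 1 D γ t ∈ Q) ∧ IsCompl P Q

/-- The eigenspaces of the curves `u ^ n = v ^ α (1 - v) ^ β` are lines. -/
def Lines : Prop := ∀ (C : Type) [Field C] [Algebra Ω C] (n α β : ℕ) (ζ : Ω) (v u : C)
    (σ : C →ₐ[Ω] C), (n : Ω) ≠ 0 → IsPrimitiveRoot ζ n → Transcendental Ω v →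
    u ^ n = v ^ α * (1 - v) ^ β → adjoin Ω {v, u} = ⊤ → σ v = v → σ u = algebraMap Ω C ζ * u →
    ∀ (ξ : L) (z z' : T.H 1 C), z ≠ 0 → T.map 1 σ z = ξ • z → T.map 1 σ z' = ξ • z' →
      ∃ c : L, z' = c • z

/-- **One side.** -/
theorem mt_side {K₁ M C N : Type} [Field K₁] [Algebra Ω K₁] [Field M] [Algebra Ω M] [Field C]
    [Algebra Ω C] [Field N] [Algebra Ω N] (hss : SSimple T) (a : M →ₐ[Ω] N) (b : C →ₐ[Ω] N)
    (x y : M) (v : C)
    (hM : (⊤ : IntermediateField Ω M).FG) (hC : (⊤ : IntermediateField Ω C).FG)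
    (hxy : ∀ k : M, k ∈ Acl Ω {x, y}) (hv : ∀ k : C, k ∈ Acl Ω {v})
    (htr : Transcendental a.fieldRange (b v)) (s : T.H 2 K₁ →ₗ[L] T.H 2 M)
    (hs : ∀ γ t, T.act 2 M γ (s t) = s (T.act 2 K₁ γ t)) (z : T.H 1 C) (hz : z ≠ 0) (α : G → L)
    (hα : ∀ γ, T.act 1 C γ z = α γ • z)
    (h0 : ∀ t, T.cup N (T.map 2 a (s t)) (T.map 1 b z) = 0) :
    ∃ (D : Ext Ω) (d : T.H 2 K₁ →ₗ[L] T.H 1 D), (⊤ : IntermediateField Ω D).FG ∧
      (∀ t, d t = 0 → s t = 0) ∧
      ∀ γ t, T.act 1 D γ (d t) = ((T.tate γ : L) * α γ) • d (T.act 2 K₁ γ t) := by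
  obtain ⟨D, iD, jD, g, hD, heq, hker⟩ := T.gysin a b x y v hM hC hxy hv htr
  have heq' : ∀ γ t, (T.tate γ : L) • TensorProduct.map (T.act 2 M γ) (T.act 1 C γ) (g t) =
      g (T.act 1 D γ t) := by
    intro γ t
    rw [heq, Units.smul_def, smul_smul, ← Units.val_mul, mul_inv_cancel, Units.val_one, one_smul]
  -- the kernel of `g` and a complement
  obtain ⟨Q, hQ, hKQ⟩ := hss D hD (LinearMap.ker g) (by
    intro γ t ht
    rw [LinearMap.mem_ker] at ht ⊢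
    rw [← heq', ht, map_zero, smul_zero])
  have hinj : ∀ q ∈ Q, g q = 0 → q = 0 := by
    intro q hq h
    have h2 : q ∈ LinearMap.ker g ⊓ Q := ⟨h, hq⟩
    rwa [hKQ.inf_eq_bot, Submodule.mem_bot] at h2
  obtain ⟨l, hl⟩ := LinearMap.exists_leftInverse_of_injective (g ∘ₗ Q.subtype) (by
    rw [LinearMap.ker_eq_bot']
    intro q hq
    exact Subtype.ext (hinj q q.2 hq))
  have hlq : ∀ q : Q, l (g q) = q := fun q => LinearMap.congr_fun hl q
  have hgl : ∀ u ∈ LinearMap.range g, g (l u : Q) = u := by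
    rintro _ ⟨p, rfl⟩
    obtain ⟨k, hk, q, hq, rfl⟩ := Submodule.mem_sup.1
      (show p ∈ LinearMap.ker g ⊔ Q by rw [hKQ.sup_eq_top]; trivial)
    rw [map_add, LinearMap.mem_ker.1 hk, zero_add, hlq ⟨q, hq⟩]
  have hrange : ∀ t, s t ⊗ₜ[L] z ∈ LinearMap.range g := by
    intro t
    refine (hker _).1 ?_
    rw [TensorProduct.lift.tmul]
    exact h0 t
  let d : T.H 2 K₁ →ₗ[L] T.H 1 D := Q.subtype ∘ₗ l ∘ₗ (TensorProduct.mk L _ _).flip z ∘ₗ s
  have hd : ∀ t, d t = (l (s t ⊗ₜ[L] z) : Q) := fun t => rfl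
  refine ⟨⟨D⟩, d, hD, fun t ht => ?_, fun γ t => ?_⟩
  · have h1 : s t ⊗ₜ[L] z = 0 := by
      rw [← hgl _ (hrange t), ← hd, ht, map_zero]
    obtain ⟨ξ', hξ'⟩ : ∃ ξ' : Module.Dual L (T.H 1 C), ξ' z ≠ 0 := by
      by_contra hcon
      push Not at hcon
      exact hz ((Module.forall_dual_apply_eq_zero_iff L z).1 hcon)
    have h2 := congrArg (fun r => TensorProduct.rid L (T.H 2 M) (ξ'.lTensor (T.H 2 M) r)) h1
    simp only [LinearMap.lTensor_tmul, TensorProduct.rid_tmul, map_zero] at h2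
    exact (smul_eq_zero.1 h2).resolve_left hξ'
  · have h1 : g (T.act 1 D γ (d t)) = g (((T.tate γ : L) * α γ) • d (T.act 2 K₁ γ t)) := by
      rw [← heq', hd, hgl _ (hrange t), TensorProduct.map_tmul, hα, hs, map_smul, hd,
        hgl _ (hrange _), TensorProduct.tmul_smul, smul_smul]
    have h2 : T.act 1 D γ (d t) - ((T.tate γ : L) * α γ) • d (T.act 2 K₁ γ t) ∈ Q := by
      refine Q.sub_mem (hQ γ _ ?_) (Q.smul_mem _ ?_)
      · rw [hd]; exact Subtype.property _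
      · rw [hd]; exact Subtype.property _
    refine sub_eq_zero.1 (hinj _ h2 ?_)
    rw [map_sub, h1, sub_self]

/-- **Abelian covers.** -/
theorem mt_cover [IsAlgClosed Ω] [CharZero L] [IsAlgClosed L] (hss : SSimple T) (hl : Lines T)
    {K : Type} [Field K] [Algebra Ω K] (R : IntermediateField Ω K) [FiniteDimensional R K]
    [IsGalois R K] (hab : ∀ g h : K ≃ₐ[R] K, g * h = h * g)
    (hM : ∀ M : IntermediateField R K, IsCyclic (M ≃ₐ[R] M) →
      Uniruled Ω M 2 ∨ ∃ n, RowB T.toBaseTheory R M n) :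
    ∃ (ι : Type) (_ : Fintype ι) (D C : ι → Ext Ω) (d : ∀ i, T.H 2 K →ₗ[L] T.H 1 (D i))
      (z : ∀ i, T.H 1 (C i)) (al : ι → G →* L),
      (∀ i, (D i).FG) ∧ (∀ i, (C i).FG) ∧ (∀ i, z i ≠ 0) ∧
      (∀ i γ, T.act 1 (C i) γ (z i) = al i γ • z i) ∧
      (∀ i γ t, T.act 1 (D i) γ (d i t) = ((T.tate γ : L) * al i γ) • d i (T.act 2 K γ t)) ∧
      ∀ t, (∀ i, d i t = 0) → t = 0 := by
  classical
  obtain ⟨m, M, s, h1, h2, h3⟩ := cover_preB T.toBaseTheory R hab (fun _ => True)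
    (fun M hc => (hM M hc).imp id fun ⟨n, hn⟩ => ⟨n, trivial, hn⟩)
  have hs : ∀ i γ t, T.act 2 (M i) γ (s i t) = s i (T.act 2 K γ t) := fun i γ t =>
    h2 i (T.act 2 K γ) (T.act 2 (M i) γ) (fun h t => T.map_act 2 h γ t)
      (fun t => T.map_act 2 _ γ t) t
  have h4 : ∀ i : {i : Fin m // s i ≠ 0}, ∃ (D C : Ext Ω) (d : T.H 2 K →ₗ[L] T.H 1 D)
      (z : T.H 1 C) (al : G →* L), D.FG ∧ C.FG ∧ z ≠ 0 ∧
      (∀ γ, T.act 1 C γ z = al γ • z) ∧
      (∀ γ t, T.act 1 D γ (d t) = ((T.tate γ : L) * al γ) • d (T.act 2 K γ t)) ∧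
      ∀ t, d t = 0 → s i t = 0 := by
    rintro ⟨i, hi⟩
    obtain ⟨n, -, C, N, iC, jC, iN, jN, a, b, x, y, α, β, ζ, v, u, τ, ξ, z, P⟩ :=
      (h3 i).resolve_left hi
    obtain ⟨al, hal⟩ := exists_char (T.act 1 C) z P.ne fun γ => by
      refine hl C n α β ζ v u τ P.tame P.root P.transC P.eq P.gen P.fix P.mul ξ z _ P.ne P.eigen ?_
      rw [T.map_act, P.eigen, map_smul]
    obtain ⟨D, d, hD, hd, hd'⟩ := mt_side T hss a b x y v P.fgM P.fgC P.algM P.algC P.trans (s i)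
      (hs i) z P.ne al hal P.zero
    exact ⟨D, ⟨C⟩, d, z, al, hD, P.fgC, P.ne, hal, hd', hd⟩
  choose D C d z al e1 e2 e3 e4 e5 e6 using h4
  refine ⟨{i : Fin m // s i ≠ 0}, inferInstance, D, C, d, z, al, e1, e2, e3, e4, e5, fun t ht => ?_⟩
  rw [← h1 t]
  refine Finset.sum_eq_zero fun i _ => ?_
  by_cases hi : s i = 0
  · rw [hi, LinearMap.zero_apply, map_zero]
  · rw [e6 ⟨i, hi⟩ t (ht _), map_zero]

end Pool.Agent.Helper15.MT
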