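import Pool.Agent.Helper15.MT.Fam2
import Pool.Agent.Helper43.MT.Goursat

/-! Project MT. The main theorem of linear algebra. -/

set_option autoImplicit false

namespace Pool.Agent.Helper15.MT

open Module

section core

variable {L G W ι : Type} [Field L] [CharZero L] [Group G] [AddCommGroup W] [Module L W]
  [FiniteDimensional L W] [Fintype ι] [DecidableEq ι] {V : ι → Type}
  [∀ i, AddCommGroup (V i)] [∀ i, Module L (V i)] [∀ i, FiniteDimensional L (V i)]

/-- conjugates of derivatives are in the Lie algebra -/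
theorem fam_core {ρ : G →* End L W} {r : ∀ i, G →* End L (V i)} {e : (∀ i, V i) ≃ₗ[L] W}
    {J : Subgroup G} {𝔳 : Submodule L (∀ i, End L (V i))}
    (hlie : ∀ x ∈ 𝔳, ∀ y ∈ 𝔳, x * y - y * x ∈ 𝔳) (F : FamData ρ r e J 𝔳)
    (hrk : ∀ i, 2 ≤ finrank L (V i) → ∃ D : ∀ i, End L (V i), D ∈ 𝔳 ∧
      (∀ j, ⨆ μ : L, Module.End.eigenspace (D j) μ = ⊤) ∧
      ∃ (v : V i) (φ : Dual L (V i)) (c d : L), φ v = 1 ∧ c • (D i - d • 1) = rk v φ)
    (D : ∀ i, End L (V i)) (hD : D ∈ 𝔳) (g : G) :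
    (fun i => r i g * D i * r i g⁻¹ - D i) ∈ 𝔳 := by
  classical
  have htr : ∀ i, LinearMap.trace L (V i) (r i g * D i * r i g⁻¹ - D i) = 0 := by
    intro i
    rw [map_sub, LinearMap.trace_mul_comm, ← mul_assoc, r_inv_mul, one_mul, sub_self]
  refine Pool.Agent.Helper43.MT.goursat 𝔳 hlie F.full (fun i j hi hsep => ?_) _ htr
    (fun i j T hT => ?_) fun i j T hT => ?_
  · obtain ⟨D', hD', hdg, v, φ, c, d, hv, hc⟩ := hrk i hi
    exact fam_link 𝔳 hlie F.full i j hi D' hD' (hdg j) v φ c d hv hc hsep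
  · by_cases hi : 2 ≤ finrank L (V i)
    · exact F.hX hD g i j hi T hT
    · have hj : finrank L (V j) ≤ 1 := by rw [← T.finrank_eq]; omega
      rw [zero_of_small hj _ (htr j), zero_of_small (by omega) _ (htr i), LinearMap.zero_comp,
        LinearMap.comp_zero]
  · by_cases hi : 2 ≤ finrank L (V i)
    · exact F.hX' hD g i j hi T hT
    · have hj : finrank L (V j) ≤ 1 := by
        rw [← Subspace.dual_finrank_eq, ← T.finrank_eq]
        omega
      rw [zero_of_small hj _ (htr j), zero_of_small (by omega) _ (htr i)]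
      refine LinearMap.ext fun v => LinearMap.ext fun w => ?_
      show T v 0 + T 0 w = (0 : L)
      rw [map_zero, map_zero, LinearMap.zero_apply, add_zero]

end core

/-- **The main theorem of linear algebra.** -/
theorem mt_abstract {L G W : Type} [Field L] [CharZero L] [Group G] [AddCommGroup W] [Module L W]
    [FiniteDimensional L W] (ρ : G →* End L W) (J : Subgroup G)
    (hsub : ∀ J' ≤ J, J'.relIndex J ≠ 0 → ∀ S : Submodule L W, (∀ g ∈ J', ∀ s ∈ S, ρ g s ∈ S) →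
      GStab ρ S ∧ ∃ S', GStab ρ S' ∧ IsCompl S S')
    (hsemi : ∀ T : End L W, (∀ g ∈ J, ∃ c : L, ∀ x, ρ g (T x) = c • T (ρ g x)) →
      ∀ g, ∃ c : L, ∀ x, ρ g (T x) = c • T (ρ g x))
    (hform : ∀ β : W →ₗ[L] Dual L W,
      (∀ g ∈ J, ∃ c : L, ∀ x y, β (ρ g x) (ρ g y) = c * β x y) →
      ∀ g, ∃ c : L, ∀ x y, β (ρ g x) (ρ g y) = c * β x y)
    (𝓜 : Set (Lˣ →* G)) (h𝓜 : ∀ m ∈ 𝓜, (∀ u, m u ∈ J) ∧ ∃ D, IsWt (fun u => ρ (m u)) D)
    (hrefl : ∀ B : Submodule L W, GSimple ρ B → 2 ≤ finrank L B →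
      ∃ m ∈ 𝓜, IsRefl ρ m B)
    {n : ℕ} (t : MultilinearMap L (fun _ : Fin n => W × Dual L W) L)
    (ht : ∀ g ∈ J, Inv (hatG (ρ g) (ρ g⁻¹)) t) (m : Lˣ →* G) (hm : m ∈ 𝓜) (g : G) (u : Lˣ) :
    Inv (hatG (ρ (g * m u * g⁻¹)) (ρ (g * m u * g⁻¹)⁻¹)) t := by
  classical
  obtain ⟨s, hs, e, he⟩ := exists_family (ρ := ρ) fun S hS =>
    (hsub J le_rfl (by rw [Subgroup.relIndex_self]; exact one_ne_zero) S
      (fun g _ => hS g)).2
  -- the representations on the blocks
  let r : ∀ B : s, G →* End L (B.1 : Submodule L W) := fun B => resρ ρ B.1 (hs B).1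
  have F1 : ∀ g y, ρ g (e y) = e (fun B => r B g (y B)) := by
    intro g y
    rw [he, he, map_sum]
    rfl
  have F1' : ∀ g, diag e (fun B => r B g) = ρ g := fun g =>
    ext_of_e e fun y => by rw [diag_apply, F1]
  -- restrictions of derivatives
  have F2 : ∀ (D : End L W) (hD : ∀ B : s, ∀ x ∈ (B.1 : Submodule L W), D x ∈ B.1),
      diag e (fun B => D.restrict (hD B)) = D := by
    intro D hD
    refine ext_of_e e fun y => ?_
    rw [diag_apply, he, he, map_sum]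
    rfl
  have hm' : ∀ m ∈ 𝓜, ∀ D, IsWt (fun u => ρ (m u)) D → Der (hat D) t := by
    intro m hm D hD
    refine (isWt_iff hD.hat).1 fun u => ?_
    have h1 := ht _ ((h𝓜 m hm).1 u)
    rw [← map_inv] at h1
    exact h1
  have hDst : ∀ m ∈ 𝓜, ∀ D, IsWt (fun u => ρ (m u)) D → ∀ B : s, ∀ x ∈ (B.1 : Submodule L W),
      D x ∈ B.1 := fun m _ D hD B => hD.stable fun u => (hs B).1 (m u)
  have F4 : ∀ m ∈ 𝓜, ∀ D, IsWt (fun u => ρ (m u)) D → ∀ hD' : (∀ B : s,
      ∀ x ∈ (B.1 : Submodule L W), D x ∈ B.1), (fun B => D.restrict (hD' B)) ∈ LF e t := by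
    intro m hm D hD hD'
    rw [mem_LF, F2]
    exact hm' m hm D hD
  have F3 : ∀ g ∈ J, ∀ x ∈ LF e t, (fun B => r B g * x B * r B g⁻¹) ∈ LF e t := by
    intro g hg x hx
    refine LF_conj e t (fun B => r B g) (fun B => r B g⁻¹) (fun B => r_mul_inv _ g) ?_ x hx
    rw [F1', F1']
    exact ht g hg
  -- the reflections
  have hrk : ∀ B : s, 2 ≤ finrank L (B.1 : Submodule L W) →
      ∃ D : ∀ B : s, End L (B.1 : Submodule L W), D ∈ LF e t ∧
        (∀ C, ⨆ μ : L, Module.End.eigenspace (D C) μ = ⊤) ∧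
        ∃ (v : (B.1 : Submodule L W)) (φ : Dual L (B.1 : Submodule L W)) (c d : L), φ v = 1 ∧
          c • (D B - d • 1) = rk v φ := by
    intro B hB
    obtain ⟨m, hm, hrefl⟩ := hrefl B.1 (hs B) hB
    obtain ⟨D, hD⟩ := (h𝓜 m hm).2
    obtain ⟨v, φ, c, d, h1, h2⟩ := hrefl.exists_rk hD (hDst m hm D hD B)
    exact ⟨fun B => D.restrict (hDst m hm D hD B), F4 m hm D hD _,
      fun C => diag_restrict hD.diag _, v, φ, c, d, h1, h2⟩
  have F : FamData ρ r e J (LF e t) := by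
    refine ⟨fun g w B => ?_, fun B hB => ?_, F3, hsemi, hform⟩
    · have h1 : ρ g w = e (fun B => r B g (e.symm w B)) := by
        conv_lhs => rw [← e.apply_symm_apply w]
        exact F1 g _
      rw [h1, e.symm_apply_apply]
    · obtain ⟨D, hD, -, v, φ, c, d, hv, hc⟩ := hrk B hB
      have h1 : comp1 (LF e t) B = ⊤ := by
        refine block_full ρ J (fun J' h1 h2 S hS => (hsub J' h1 h2 S hS).1) B.1 (hs B)
          (comp1_lie (LF_lie e t) B) ?_ v φ hv ?_
        · rintro g hg _ ⟨x, hx, c, rfl⟩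
          refine ⟨_, F3 g hg x hx, c, ?_⟩
          have h2 := r_mul_inv (resρ ρ B.1 (hs B).1) g
          rw [mul_add, add_mul, mul_smul_comm, smul_mul_assoc, mul_one, h2]
        · refine ⟨_, (LF e t).smul_mem c hD, -(c * d), ?_⟩
          rw [← hc]
          exact shift_scalar _ c d
      intro y
      have h2 : y ∈ comp1 (LF e t) B := by rw [h1]; exact Submodule.mem_top
      exact h2
  obtain ⟨D, hD⟩ := (h𝓜 m hm).2
  have h1 := fam_core (LF_lie e t) F hrk _ (F4 m hm D hD (hDst m hm D hD)) g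
  have h2 : Der (hat (ρ g * D * ρ g⁻¹ - D)) t := by
    rw [mem_LF] at h1
    have h3 : diag e (fun B : s => r B g * D.restrict (hDst m hm D hD B) * r B g⁻¹ -
        D.restrict (hDst m hm D hD B)) = ρ g * D * ρ g⁻¹ - D := by
      have h4 := diag_sub e ((fun B => r B g) * (fun B : s => D.restrict (hDst m hm D hD B)) *
        (fun B => r B g⁻¹)) (fun B : s => D.restrict (hDst m hm D hD B))
      rw [diag_mul, diag_mul, F1', F1', F2] at h4
      exact h4
    rw [h3] at h1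
    exact h1
  have h3 : Der (hat (ρ g * D * ρ g⁻¹)) t := by
    have h4 := h2.add (hm' m hm D hD)
    rw [← hat_add, sub_add_cancel] at h4
    exact h4
  have h4 := (isWt_iff (hD.conj (r_mul_inv ρ g) (r_inv_mul ρ g)).hat).2 h3 u
  have e1 : (g * m u * g⁻¹)⁻¹ = g * m u⁻¹ * g⁻¹ := by
    rw [map_inv]
    group
  rw [e1]
  simp only [map_mul]
  exact h4

end Pool.Agent.Helper15.MT
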