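import Pool.Agent.Helper15.MT.Defs
import Pool.Agent.Helper15.MT.Main
import Pool.Agent.Helper15.MT.Geo
import Pool.Agent.Helper15.GD.Conv
import Pool.Agent.Helper70.MTG.Transfer

/-! Project MT. The theorem for covers, from the geometric input. -/

set_option autoImplicit false

namespace Pool.Agent.Helper15.MT

open IntermediateField CategoryTheory MonoidalCategory Pool.Agent.Helper15.GD
  Pool.Agent.Helper15.QM Pool.Agent.Helper70.MTG

variable {Ω L G : Type} [Field Ω] [Field L] [Group G]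

theorem mem_of_relIndex [IsAlgClosed L] {J J' : Subgroup G} (h : J'.relIndex J ≠ 0)
    (m : Lˣ →* G) (hm : ∀ z, m z ∈ J) (z : Lˣ) : m z ∈ J' := by
  obtain ⟨n, hn⟩ : ∃ n, n = Nat.factorial (J'.relIndex J) := ⟨_, rfl⟩
  have hn0 : n ≠ 0 := by rw [hn]; exact Nat.factorial_ne_zero _
  obtain ⟨w, hw⟩ := IsAlgClosed.exists_pow_nat_eq (z : L) (Nat.pos_of_ne_zero hn0)
  have hw0 : w ≠ 0 := by
    rintro rfl
    rw [zero_pow hn0] at hw
    exact z.ne_zero hw.symm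
  have h1 : z = Units.mk0 w hw0 ^ n := Units.ext (by
    rw [Units.val_pow_eq_pow_val, Units.val_mk0, hw])
  rw [h1, map_pow]
  exact (Subgroup.pow_mem_of_relIndex_ne_zero_of_dvd h (hm _) fun m h1 h2 => by
    rw [hn]
    exact Nat.dvd_factorial h1 h2).1

theorem generated_le [IsAlgClosed L] {J J' : Subgroup G} (h : J'.relIndex J ≠ 0)
    {𝓜 : Set (Lˣ →* G)} (hm : ∀ m ∈ 𝓜, ∀ z, m z ∈ J) :
    generated 𝓜 ≤ Subgroup.normalClosure (J' : Set G) := by
  refine Subgroup.normalClosure_mono ?_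
  rintro _ ⟨m, hm', z, rfl⟩
  exact mem_of_relIndex h m (hm m hm') z

variable {T : MotivicCoh Ω L G} {J P : Subgroup G} {𝓜 : Set (Lˣ →* G)}

/-- the finite form of the theorem of Deligne and André, for families -/
theorem full_family {Q : Subgroup G}
    (hQ : ∀ (n : ℕ) (D : Fin n → Ext Ω), (∀ i, (D i).FG) → IsFull T Q D)
    {ι : Type} [Finite ι] (D : ι → Ext Ω) (hD : ∀ i, (D i).FG) (γ : G) :
    ∃ δ ∈ Q, T.tate γ = T.tate δ ∧ ∀ i, T.act 1 (D i) γ = T.act 1 (D i) δ := by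
  obtain ⟨n, ⟨e⟩⟩ := Finite.exists_equiv_fin ι
  obtain ⟨δ, h1, h2, h3⟩ := hQ n (fun k => D (e.symm k)) (fun k => hD _) γ
  refine ⟨δ, h1, h2, fun i => ?_⟩
  have h4 : ∀ j, e.symm (e i) = j → T.act 1 (D j) γ = T.act 1 (D j) δ := by
    rintro _ rfl
    exact h3 (e i)
  exact h4 i (e.symm_apply_apply i)

variable (hT : T.IsMotivic)

theorem act_eq (i : ℕ) (K : Ext Ω) (γ : G) :
    (T.toTheory hT).act i K γ = (T.act i K γ).hom := rfl

/-- The elements of `G` act as elements of `Q`. -/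
theorem gen_of {Q : Subgroup G}
    (hQ : ∀ (n : ℕ) (D : Fin n → Ext Ω), (∀ i, (D i).FG) → IsFull T Q D)
    {ι : Type} [Finite ι] (D C : ι → Ext Ω)
    (hD : ∀ i, (D i).FG) (hC : ∀ i, (C i).FG) (z : ∀ i, T.H 1 (C i))
    (al : ι → G →* L) (hz : ∀ i, z i ≠ 0)
    (hal : ∀ i γ, (T.act 1 (C i) γ).hom (z i) = al i γ • z i) (g : G) :
    ∃ δ ∈ Q, ∀ i, (T.toTheory hT).act 1 (D i) g = (T.toTheory hT).act 1 (D i) δ ∧
      (T.tate * al i : G →* L) g = (T.tate * al i : G →* L) δ := by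
  obtain ⟨δ, h3, h4, h5⟩ := full_family hQ (fun i : ι ⊕ ι => Sum.elim D C i)
    (by rintro (i | i); exacts [hD i, hC i]) g
  refine ⟨δ, h3, fun i => ⟨?_, ?_⟩⟩
  · exact congrArg (fun f => f.hom) (h5 (Sum.inl i))
  · have h6 : al i g = al i δ := by
      have h7 : (T.act 1 (C i) g).hom (z i) = (T.act 1 (C i) δ).hom (z i) :=
        congrArg (fun f => f.hom (z i)) (h5 (Sum.inr i))
      rw [hal, hal] at h7
      have h8 : (al i g - al i δ) • z i = 0 := by rw [sub_smul, h7, sub_self]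
      exact sub_eq_zero.1 ((smul_eq_zero.1 h8).resolve_right (hz i))
    show T.tate g * al i g = T.tate δ * al i δ
    rw [h4, h6]

/-- The hypotheses of the transfer theorem. -/
theorem hyp_of [IsAlgClosed L] (hJ : IsArithmetic T J P 𝓜) {W ι : Type} [AddCommGroup W]
    [Module L W] [Fintype ι] (ρ : G →* Module.End L W) (D C : ι → Ext Ω) (hD : ∀ i, (D i).FG)
    (hC : ∀ i, (C i).FG) (d : ∀ i, W →ₗ[L] T.H 1 (D i)) (z : ∀ i, T.H 1 (C i))
    (al : ι → G →* L) (hz : ∀ i, z i ≠ 0)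
    (hal : ∀ i γ, (T.act 1 (C i) γ).hom (z i) = al i γ • z i)
    (hd : ∀ i γ t, (T.act 1 (D i) γ).hom (d i t) = (T.tate γ * al i γ) • d i (ρ γ t))
    (hinj : ∀ t, (∀ i, d i t = 0) → t = 0) (J' : Subgroup G) (h1 : J' ≤ J)
    (h2 : J'.relIndex J ≠ 0) :
    Hyp ρ (fun i => (T.toTheory hT).act 1 (D i)) d (fun i => T.tate * al i) J' where
  hd i γ t := hd i γ t
  hinj := hinj
  ss i S hS := by
    obtain ⟨S', h3, h4⟩ := (hJ.faltings J' h1 h2 (D i) (D i) (hD i) (hD i)).semisimple S hS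
    exact ⟨S', h3, h4⟩
  semi i j f hf g := by
    have h3 := (hJ.faltings J' h1 h2 (D i) (D j) (hD i) (hD j)).map (ModuleCat.ofHom f)
      (fun γ hγ => by
        obtain ⟨c, hc⟩ := hf γ hγ
        exact ⟨c, ModuleCat.hom_ext (LinearMap.ext fun x => hc x)⟩) g (Subgroup.mem_top _)
    obtain ⟨c, hc⟩ := h3
    exact ⟨c, fun x => congrArg (fun f => f.hom x) hc⟩
  form i j β hβ g := (hJ.faltings J' h1 h2 (D i) (D j) (hD i) (hD j)).form β
      (fun γ hγ => hβ γ hγ) g (Subgroup.mem_top _)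
  hJ g := by
    obtain ⟨δ, h3, h4⟩ := gen_of hT (fun n D hD => (hJ.deligne n D hD).2) D C hD hC z al hz hal g
    exact ⟨δ, generated_le h2 hJ.mem h3, h4⟩

/-- `H 1` is semisimple. -/
theorem ssimple_of [IsAlgClosed L] (hJ : IsArithmetic T J P 𝓜) : SSimple (T.toTheory hT) := by
  intro D _ _ hD S hS
  have hself : J.relIndex J ≠ 0 := by rw [Subgroup.relIndex_self]; exact one_ne_zero
  have H : Hyp ((T.toTheory hT).act 1 D) (fun _ : Unit => (T.toTheory hT).act 1 D)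
      (fun _ => LinearMap.id) (fun _ => (1 : G →* L)) J :=
    { hd := fun i γ t => by
        show _ = (1 : L) • _
        rw [one_smul]
        rfl
      hinj := fun w h => h ()
      ss := fun i S hS => (hJ.faltings J le_rfl hself ⟨D⟩ ⟨D⟩ hD hD).semisimple S hS
      semi := fun i j f hf g => by
        obtain ⟨c, hc⟩ := (hJ.faltings J le_rfl hself ⟨D⟩ ⟨D⟩ hD hD).map (ModuleCat.ofHom f)
          (fun γ hγ => by
            obtain ⟨c, hc⟩ := hf γ hγ
            exact ⟨c, ModuleCat.hom_ext (LinearMap.ext fun x => hc x)⟩) g (Subgroup.mem_top _)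
        exact ⟨c, fun x => congrArg (fun f => f.hom x) hc⟩
      form := fun i j β hβ g => (hJ.faltings J le_rfl hself ⟨D⟩ ⟨D⟩ hD hD).form β
        (fun γ hγ => hβ γ hγ) g (Subgroup.mem_top _)
      hJ := fun g => by
        obtain ⟨δ, h3, -, h5⟩ := full_family (fun n D hD => (hJ.deligne n D hD).2)
          (fun _ : Unit => (⟨D⟩ : Ext Ω)) (fun _ => hD) g
        exact ⟨δ, generated_le hself hJ.mem h3, fun i =>
          ⟨congrArg (fun f => f.hom) (h5 ()), rfl⟩⟩ }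
  obtain ⟨-, S', hS', hSS⟩ := H.transfer_sub S fun g _ => hS g
  exact ⟨S', (H.transfer_sub S' hS').1, hSS⟩

/-- The eigenspaces are lines. -/
theorem lines_of (hJ : IsArithmetic T J P 𝓜) : Lines (T.toTheory hT) := by
  intro C _ _ n α β ζ v u σ h1 h2 h3 h4 h5 h6 h7 ξ z z' hz hzξ hzξ'
  have h8 := hJ.lines ⟨C⟩ n α β ζ v u σ ⟨h1, h2, h3, h4, h5, h6, h7⟩ ξ
  have hfg : (⊤ : IntermediateField Ω C).FG := by
    rw [← h5]
    exact fg_adjoin_of_finite (Set.toFinite _)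
  have hfin : FiniteDimensional L (T.H 1 ⟨C⟩) := hT.base.finite 1 ⟨C⟩ hfg
  obtain ⟨⟨v₀, hv₀⟩, h9⟩ := finrank_le_one_iff.1 h8
  obtain ⟨c, hc⟩ := h9 ⟨z, Module.End.mem_eigenspace_iff.2 hzξ⟩
  obtain ⟨c', hc'⟩ := h9 ⟨z', Module.End.mem_eigenspace_iff.2 hzξ'⟩
  have e1 : c • v₀ = z := congrArg Subtype.val hc
  have e2 : c' • v₀ = z' := congrArg Subtype.val hc'
  have hc0 : c ≠ 0 := by
    rintro rfl
    rw [zero_smul] at e1
    exact hz e1.symm
  refine ⟨c' * c⁻¹, ?_⟩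
  have e3 : c' • v₀ = (c' * c⁻¹) • (c • v₀) := by
    rw [smul_smul, mul_assoc, inv_mul_cancel₀ hc0, mul_one]
  rw [e1, e2] at e3
  exact e3

end Pool.Agent.Helper15.MT
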