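import Pool.Agent.Helper15.MT.Refl

/-! Project MT. A Lie algebra which is stable under a group whose subgroups of finite index are
irreducible, and contains a projection to a line, consists of all the endomorphisms. -/

set_option autoImplicit false

namespace Pool.Agent.Helper15.MT

open Module

variable {L V Γ : Type*} [Field L] [AddCommGroup V] [Module L V] [Group Γ]

/-- stable under the elements of `𝔩` -/
def LStab (𝔩 : Submodule L (End L V)) (S : Submodule L V) : Prop := ∀ x ∈ 𝔩, ∀ s ∈ S, x s ∈ S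

theorem ρ_inv_mul (ρ : Γ →* End L V) (g : Γ) (s : V) : ρ g⁻¹ (ρ g s) = s := by
  rw [← Module.End.mul_apply, ← map_mul, inv_mul_cancel, map_one, Module.End.one_apply]

theorem ρ_mul_inv (ρ : Γ →* End L V) (g : Γ) (s : V) : ρ g (ρ g⁻¹ s) = s := by
  rw [← Module.End.mul_apply, ← map_mul, mul_inv_cancel, map_one, Module.End.one_apply]

theorem map_map_ρ (ρ : Γ →* End L V) (g h : Γ) (S : Submodule L V) :
    (S.map (ρ h)).map (ρ g) = S.map (ρ (g * h)) := by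
  rw [map_mul, ← Submodule.map_comp]
  rfl

theorem map_one_ρ (ρ : Γ →* End L V) (S : Submodule L V) : S.map (ρ 1) = S := by
  rw [map_one]
  exact Submodule.map_id S

theorem LStab.map {ρ : Γ →* End L V} {𝔩 : Submodule L (End L V)}
    (hconj : ∀ g, ∀ x ∈ 𝔩, ρ g * x * ρ g⁻¹ ∈ 𝔩) {S : Submodule L V} (hS : LStab 𝔩 S) (g : Γ) :
    LStab 𝔩 (S.map (ρ g)) := by
  rintro x hx _ ⟨s, hs, rfl⟩
  have h1 := hconj g⁻¹ x hx
  rw [inv_inv] at h1
  refine ⟨_, hS _ h1 s hs, ?_⟩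
  simp only [Module.End.mul_apply]
  rw [ρ_mul_inv]

/-- **The block theorem.** -/
theorem full_of_refl [CharZero L] [FiniteDimensional L V] (ρ : Γ →* End L V)
    (hirr : ∀ Γ' : Subgroup Γ, Γ'.FiniteIndex → ∀ S : Submodule L V,
      (∀ g ∈ Γ', ∀ s ∈ S, ρ g s ∈ S) → S = ⊥ ∨ S = ⊤)
    {𝔩 : Submodule L (End L V)} (hl : IsLie 𝔩) (hconj : ∀ g, ∀ x ∈ 𝔩, ρ g * x * ρ g⁻¹ ∈ 𝔩)
    (v : V) (φ : Dual L V) (hv : φ v = 1) (hp : rk v φ ∈ 𝔩) : 𝔩 = ⊤ := by
  classical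
  refine top_of_irred hl v φ hv hp fun S₁ hS₁ => ?_
  by_cases hS₁0 : S₁ = ⊥
  · exact Or.inl hS₁0
  right
  -- a minimal stable subspace
  obtain ⟨S₀, ⟨h0, h0', h0''⟩, hmin⟩ :=
    (wellFounded_lt (α := Submodule L V)).has_min {S | S ≠ ⊥ ∧ LStab 𝔩 S ∧ S ≤ S₁}
      ⟨S₁, hS₁0, hS₁, le_rfl⟩
  have hmin' : ∀ T : Submodule L V, T ≠ ⊥ → LStab 𝔩 T → T ≤ S₀ → T = S₀ := by
    intro T hT hT' hle
    by_contra hne
    exact hmin T ⟨hT, hT', hle.trans h0''⟩ (lt_of_le_of_ne hle hne)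
  -- translates are minimal
  have hne : ∀ g : Γ, ∀ S : Submodule L V, S ≠ ⊥ → S.map (ρ g) ≠ ⊥ := by
    intro g S hS h
    apply hS
    have h1 : (S.map (ρ g)).map (ρ g⁻¹) = S := by
      rw [map_map_ρ, inv_mul_cancel, map_one_ρ]
    rw [← h1, h, Submodule.map_bot]
  have hmint : ∀ g : Γ, ∀ T : Submodule L V, T ≠ ⊥ → LStab 𝔩 T → T ≤ S₀.map (ρ g) →
      T = S₀.map (ρ g) := by
    intro g T hT hT' hle
    have h1 := hmin' (T.map (ρ g⁻¹)) (hne _ _ hT) (hT'.map hconj _) (by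
      calc T.map (ρ g⁻¹) ≤ (S₀.map (ρ g)).map (ρ g⁻¹) := Submodule.map_mono hle
        _ = S₀ := by rw [map_map_ρ, inv_mul_cancel, map_one_ρ])
    rw [← h1, map_map_ρ, mul_inv_cancel, map_one_ρ]
  -- a translate on which `φ` does not vanish
  obtain ⟨g₀, s₀, hs₀, hφ₀⟩ : ∃ g₀ : Γ, ∃ s₀ ∈ S₀, φ (ρ g₀ s₀) ≠ 0 := by
    by_contra hcon
    push Not at hcon
    let K : Submodule L V :=
      { carrier := {s | ∀ g, φ (ρ g s) = 0}
        add_mem' := fun {a b} ha hb g => by rw [map_add, map_add, ha g, hb g, add_zero]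
        zero_mem' := fun g => by rw [map_zero, map_zero]
        smul_mem' := fun c a ha g => by rw [map_smul, map_smul, ha g, smul_zero] }
    have hK : S₀ ≤ K := fun s hs g => hcon g s hs
    have hK' := hirr ⊤ inferInstance K (fun g _ s hs g' => by
      rw [← Module.End.mul_apply, ← map_mul]
      exact hs _)
    rcases hK' with h | h
    · exact h0 (le_bot_iff.1 (h ▸ hK))
    · have h1 : v ∈ K := by rw [h]; exact Submodule.mem_top
      have h2 := h1 1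
      rw [map_one, Module.End.one_apply, hv] at h2
      exact one_ne_zero h2
  obtain ⟨S, hSdef⟩ : ∃ S, S = S₀.map (ρ g₀) := ⟨_, rfl⟩
  have hS0 : S ≠ ⊥ := by rw [hSdef]; exact hne _ _ h0
  have hS : LStab 𝔩 S := by rw [hSdef]; exact h0'.map hconj _
  have hSmin : ∀ g : Γ, ∀ T : Submodule L V, T ≠ ⊥ → LStab 𝔩 T → T ≤ S.map (ρ g) →
      T = S.map (ρ g) := by
    intro g T h1 h2 h3
    rw [hSdef, map_map_ρ] at h3 ⊢
    exact hmint _ T h1 h2 h3
  have hSmin1 : ∀ T : Submodule L V, T ≠ ⊥ → LStab 𝔩 T → T ≤ S → T = S := by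
    intro T h1 h2 h3
    have h4 := hSmin 1 T h1 h2
    rw [map_one_ρ] at h4
    exact h4 h3
  obtain ⟨s₁, hs₁, hφ₁⟩ : ∃ s₁ ∈ S, φ s₁ ≠ 0 := by
    refine ⟨ρ g₀ s₀, ?_, hφ₀⟩
    rw [hSdef]
    exact ⟨s₀, hs₀, rfl⟩
  have hmemv : ∀ T : Submodule L V, LStab 𝔩 T → (∃ s ∈ T, φ s ≠ 0) → v ∈ T := by
    rintro T hT ⟨s, hs, hφ⟩
    have h1 := hT _ hp s hs
    rw [rk_apply] at h1
    have h2 := T.smul_mem (φ s)⁻¹ h1
    rwa [smul_smul, inv_mul_cancel₀ hφ, one_smul] at h2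
  have hv0 : v ≠ 0 := by
    rintro rfl
    rw [map_zero] at hv
    exact zero_ne_one hv
  have hkey : ∀ g : Γ, S.map (ρ g) = S ∨ ∀ s ∈ S.map (ρ g), φ s = 0 := by
    intro g
    by_contra hcon
    push Not at hcon
    obtain ⟨h1, s, hs, hφ⟩ := hcon
    have h2 := hmemv _ (hS.map hconj g) ⟨s, hs, hφ⟩
    have h3 := hmemv S hS ⟨s₁, hs₁, hφ₁⟩
    have h4 : S.map (ρ g) ⊓ S ≠ ⊥ := by
      intro h
      have h5 : v ∈ S.map (ρ g) ⊓ S := ⟨h2, h3⟩
      rw [h] at h5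
      exact hv0 ((Submodule.mem_bot L).1 h5)
    have h5 : LStab 𝔩 (S.map (ρ g) ⊓ S) := fun x hx s hs =>
      ⟨(hS.map hconj g) x hx s hs.1, hS x hx s hs.2⟩
    have h6 := hSmin g _ h4 h5 inf_le_left
    have h7 := hSmin1 _ h4 h5 inf_le_right
    exact h1 (h6.symm.trans h7)
  -- the stabiliser
  let Γ' : Subgroup Γ :=
    { carrier := {g | S.map (ρ g) = S}
      mul_mem' := fun {a b} ha hb => by
        show S.map (ρ (a * b)) = S
        rw [← map_map_ρ, hb, ha]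
      one_mem' := map_one_ρ ρ S
      inv_mem' := fun {a} ha => by
        show S.map (ρ a⁻¹) = S
        conv_lhs => rw [← (ha : S.map (ρ a) = S)]
        rw [map_map_ρ, inv_mul_cancel, map_one_ρ] }
  let f : Γ ⧸ Γ' → Submodule L V := fun q => S.map (ρ q.out)
  have hfL : ∀ q, LStab 𝔩 (f q) := fun q => hS.map hconj _
  have hind : iSupIndep f := by
    intro q
    rw [disjoint_iff]
    by_contra hX
    have h1 : ∀ j, j ≠ q → f j ≤ LinearMap.ker (φ ∘ₗ ρ q.out⁻¹) := by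
      intro j hj
      have h2 : S.map (ρ (q.out⁻¹ * j.out)) ≠ S := by
        intro h
        apply hj
        have h3 : q.out⁻¹ * j.out ∈ Γ' := h
        have h4 := QuotientGroup.eq.2 h3
        rw [QuotientGroup.out_eq', QuotientGroup.out_eq'] at h4
        exact h4.symm
      have h3 := (hkey _).resolve_left h2
      rintro _ ⟨s, hs, rfl⟩
      rw [LinearMap.mem_ker, LinearMap.comp_apply]
      apply h3
      rw [← map_map_ρ]
      exact ⟨_, ⟨s, hs, rfl⟩, rfl⟩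
    have h2 : (⨆ j, ⨆ (_ : j ≠ q), f j) ≤ LinearMap.ker (φ ∘ₗ ρ q.out⁻¹) :=
      iSup_le fun j => iSup_le fun hj => h1 j hj
    have h3 : LStab 𝔩 (⨆ j, ⨆ (_ : j ≠ q), f j) := by
      intro x hx s hs
      have h4 : (⨆ j, ⨆ (_ : j ≠ q), f j) ≤ (⨆ j, ⨆ (_ : j ≠ q), f j).comap x := by
        refine iSup_le fun j => iSup_le fun hj => fun s hs => ?_
        rw [Submodule.mem_comap]
        exact (le_iSup₂_of_le (f := fun j (_ : j ≠ q) => f j) j hj le_rfl) (hfL j x hx s hs)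
      exact h4 hs
    have h4 : LStab 𝔩 (f q ⊓ ⨆ j, ⨆ (_ : j ≠ q), f j) := fun x hx s hs =>
      ⟨hfL q x hx s hs.1, h3 x hx s hs.2⟩
    have h5 := hSmin _ _ hX h4 inf_le_left
    have h6 : f q ≤ LinearMap.ker (φ ∘ₗ ρ q.out⁻¹) := by
      calc f q = f q ⊓ ⨆ j, ⨆ (_ : j ≠ q), f j := h5.symm
        _ ≤ _ := inf_le_right.trans h2
    have h7 : ρ q.out s₁ ∈ f q := ⟨s₁, hs₁, rfl⟩
    have h8 := h6 h7
    rw [LinearMap.mem_ker, LinearMap.comp_apply, ρ_inv_mul] at h8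
    exact hφ₁ h8
  have hfin : Finite (Γ ⧸ Γ') :=
    WellFoundedGT.finite_of_iSupIndep hind fun q => hne _ _ hS0
  have hfi : Γ'.FiniteIndex := Subgroup.finiteIndex_of_finite_quotient
  have hS1 : S = ⊤ := (hirr Γ' hfi S fun g hg s hs => by
    have h1 : S.map (ρ g) = S := hg
    have h2 : ρ g s ∈ S.map (ρ g) := ⟨s, hs, rfl⟩
    rwa [h1] at h2).resolve_left hS0
  have hS₀ : S₀ = ⊤ := by
    have h1 : (S₀.map (ρ g₀)).map (ρ g₀⁻¹) = S₀ := by
      rw [map_map_ρ, inv_mul_cancel, map_one_ρ]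
    rw [← h1, ← hSdef, hS1, eq_top_iff]
    intro x _
    exact ⟨ρ g₀ x, Submodule.mem_top, ρ_inv_mul ρ g₀ x⟩
  rw [hS₀] at h0''
  exact top_le_iff.1 h0''

end Pool.Agent.Helper15.MT
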