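import Pool.Agent.Helper15.MT.Refl

/-! Project MT. Linked blocks: uniqueness of the link, and conjugation. -/

set_option autoImplicit false

namespace Pool.Agent.Helper15.MT

open Module

variable {L V Y : Type*} [Field L] [AddCommGroup V] [Module L V] [AddCommGroup Y] [Module L Y]

/-- An endomorphism which commutes with all endomorphisms is a scalar. -/
theorem scalar_of_commute [FiniteDimensional L V] (S : End L V) (h : ∀ x : End L V, x * S = S * x) :
    ∃ c : L, S = c • (1 : End L V) := by
  classical
  rcases subsingleton_or_nontrivial V with hV | hV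
  · exact ⟨0, LinearMap.ext fun x => Subsingleton.elim _ _⟩
  obtain ⟨v, hv⟩ := exists_ne (0 : V)
  obtain ⟨φ, hφ⟩ : ∃ φ : Dual L V, φ v = 1 := by
    obtain ⟨f, hf⟩ : ∃ f : Dual L V, f v ≠ 0 := by
      by_contra hcon
      push Not at hcon
      exact hv ((Module.forall_dual_apply_eq_zero_iff L v).1 hcon)
    exact ⟨(f v)⁻¹ • f, by rw [LinearMap.smul_apply, smul_eq_mul, inv_mul_cancel₀ hf]⟩
  refine ⟨φ (S v), LinearMap.ext fun x => ?_⟩
  have h1 := congrArg (fun f => f v) (h (rk x φ))
  simp only [Module.End.mul_apply, rk_apply, hφ, one_smul] at h1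
  rw [← h1, LinearMap.smul_apply, Module.End.one_apply]

/-- The isomorphism which links two blocks is unique up to scalars, so it is compatible with every
automorphism which normalises the pairs of endomorphisms. -/
theorem link_semi [CharZero L] [FiniteDimensional L V] (hV : finrank L V ≠ 0)
    (P : Set (End L V × End L Y)) (hfull : ∀ y : End L V, ∃ x ∈ P, ∃ c : L, x.1 + c • 1 = y)
    (T : V ≃ₗ[L] Y)
    (hT : ∀ x ∈ P, ∃ c : L, x.2 ∘ₗ T.toLinearMap - T.toLinearMap ∘ₗ x.1 = c • T.toLinearMap)
    (a a' : End L V) (b b' : End L Y) (ha : a * a' = 1) (ha' : a' * a = 1) (hb : b * b' = 1)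
    (hb' : b' * b = 1) (hconj : ∀ x ∈ P, (a' * x.1 * a, b' * x.2 * b) ∈ P) :
    ∃ s : L, ∀ v, b (T v) = s • T (a v) := by
  classical
  have ea : ∀ v, a (a' v) = v := fun v => congrArg (fun f => f v) ha
  have ea' : ∀ v, a' (a v) = v := fun v => congrArg (fun f => f v) ha'
  have eb : ∀ v, b (b' v) = v := fun v => congrArg (fun f => f v) hb
  have eb' : ∀ v, b' (b v) = v := fun v => congrArg (fun f => f v) hb'
  -- `S = T⁻¹ b T a'`
  let S : End L V := T.symm.toLinearMap ∘ₗ b ∘ₗ T.toLinearMap ∘ₗ a'
  let S' : End L V := a ∘ₗ T.symm.toLinearMap ∘ₗ b' ∘ₗ T.toLinearMap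
  have hS : ∀ v, S v = T.symm (b (T (a' v))) := fun _ => rfl
  have hS' : ∀ v, S' v = a (T.symm (b' (T v))) := fun _ => rfl
  have hSS' : S * S' = 1 := by
    refine LinearMap.ext fun v => ?_
    rw [Module.End.mul_apply, hS, hS', ea', LinearEquiv.apply_symm_apply, eb,
      LinearEquiv.symm_apply_apply, Module.End.one_apply]
  have hcomm : ∀ x ∈ P, x.1 * S = S * x.1 := by
    intro x hx
    obtain ⟨c, hc⟩ := hT x hx
    obtain ⟨c', hc'⟩ := hT _ (hconj x hx)
    have h1 : ∀ v, x.2 (T v) = T (x.1 v) + c • T v := fun v => by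
      have := congrArg (fun f => f v) hc
      simp only [LinearMap.sub_apply, LinearMap.comp_apply, LinearMap.smul_apply,
        LinearEquiv.coe_coe] at this
      rw [← this]
      abel
    have h2 : ∀ v, b' (x.2 (b (T v))) = T (a' (x.1 (a v))) + c' • T v := fun v => by
      have := congrArg (fun f => f v) hc'
      simp only [LinearMap.sub_apply, LinearMap.comp_apply, LinearMap.smul_apply,
        LinearEquiv.coe_coe, Module.End.mul_apply] at this
      rw [← this]
      abel
    -- `x.1 S - S x.1 = (c' - c) S`
    have h3 : x.1 * S - S * x.1 = (c' - c) • S := by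
      refine LinearMap.ext fun v => ?_
      have e1 : T (x.1 (S v)) = x.2 (b (T (a' v))) - c • b (T (a' v)) := by
        have := h1 (S v)
        rw [hS, LinearEquiv.apply_symm_apply] at this
        rw [hS, this]
        abel
      have e2 : T (S (x.1 v)) = b (T (a' (x.1 v))) := by
        rw [hS, LinearEquiv.apply_symm_apply]
      have e3 : x.2 (b (T (a' v))) = b (T (a' (x.1 v))) + c' • b (T (a' v)) := by
        have h4 := congrArg b (h2 (a' v))
        rw [eb, ea, map_add, map_smul] at h4
        exact h4
      apply T.injective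
      simp only [LinearMap.sub_apply, Module.End.mul_apply, LinearMap.smul_apply, map_sub,
        map_smul]
      rw [e1, e2, e3, hS, LinearEquiv.apply_symm_apply, sub_smul]
      abel
    have h4 : c' - c = 0 := by
      have h5 : LinearMap.trace L V ((x.1 * S - S * x.1) * S') =
          LinearMap.trace L V (((c' - c) • S) * S') := by rw [h3]
      have h6 : (x.1 * S - S * x.1) * S' = x.1 - S * (x.1 * S') := by
        rw [sub_mul, mul_assoc x.1 S S', hSS', mul_one, mul_assoc]
      have h7 : LinearMap.trace L V (S * (x.1 * S')) = LinearMap.trace L V x.1 := by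
        rw [LinearMap.trace_mul_comm, mul_assoc]
        have h8 : S' * S = 1 := by
          refine LinearMap.ext fun v => ?_
          rw [Module.End.mul_apply, hS', hS, LinearEquiv.apply_symm_apply, eb',
            LinearEquiv.symm_apply_apply, ea, Module.End.one_apply]
        rw [h8, mul_one]
      rw [h6, map_sub, h7, sub_self, smul_mul_assoc, hSS', map_smul, LinearMap.trace_one,
        smul_eq_mul] at h5
      refine (mul_eq_zero.1 h5.symm).resolve_right ?_
      exact_mod_cast hV
    rw [h4, zero_smul, sub_eq_zero] at h3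
    exact h3
  obtain ⟨s, hs⟩ := scalar_of_commute S fun y => by
    obtain ⟨x, hx, c, rfl⟩ := hfull y
    rw [add_mul, mul_add, hcomm x hx, smul_mul_assoc, mul_smul_comm, one_mul, mul_one]
  refine ⟨s, fun v => ?_⟩
  have h1 := congrArg (fun f => T (f (a v))) hs
  simp only [LinearMap.smul_apply, Module.End.one_apply, map_smul] at h1
  rw [hS, LinearEquiv.apply_symm_apply, ea'] at h1
  exact h1

/-- conjugates of a pair of endomorphisms which is compatible with the link -/
theorem link_conj (T : V ≃ₗ[L] Y) (D : End L V) (E : End L Y) (k : L)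
    (h : ∀ v, E (T v) - T (D v) = k • T v) (a a' : End L V) (b b' : End L Y) (ha' : a * a' = 1)
    (hb : b * b' = 1) (hb' : b' * b = 1) (s : L) (hs : ∀ v, b (T v) = s • T (a v)) (v : V) :
    (b * E * b' - E) (T v) = T ((a * D * a' - D) v) := by
  have ea : ∀ v, a (a' v) = v := fun v => congrArg (fun f => f v) ha'
  have eb : ∀ v, b (b' v) = v := fun v => congrArg (fun f => f v) hb
  have eb' : ∀ v, b' (b v) = v := fun v => congrArg (fun f => f v) hb'
  have h1 : ∀ v, s • b' (T v) = T (a' v) := fun v => by
    have h2 := congrArg b' (hs (a' v))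
    rw [eb', ea, map_smul] at h2
    exact h2.symm
  have h2 : b (E (b' (T v))) = T (a (D (a' v))) + k • T v := by
    by_cases hs0 : s = 0
    · have h3 : T v = 0 := by
        have h4 := hs v
        rw [hs0, zero_smul] at h4
        have h5 := congrArg b' h4
        rwa [eb', map_zero] at h5
      have h6 : v = 0 := by
        apply T.injective
        rw [h3, map_zero]
      rw [h6]
      simp
    · have h3 : b' (T v) = s⁻¹ • T (a' v) := by
        rw [← h1, smul_smul, inv_mul_cancel₀ hs0, one_smul]
      have h4 : E (T (a' v)) = T (D (a' v)) + k • T (a' v) := by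
        rw [← h (a' v)]
        abel
      rw [h3, map_smul, h4, map_smul, map_add, map_smul, hs, hs, ea, smul_add, smul_smul,
        smul_smul, smul_smul, inv_mul_cancel₀ hs0, one_smul]
      congr 2
      field_simp
  have h3 : E (T v) = T (D v) + k • T v := by
    rw [← h v]
    abel
  simp only [LinearMap.sub_apply, Module.End.mul_apply, map_sub]
  rw [h2, h3]
  abel

end Pool.Agent.Helper15.MT
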