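import Mathlib

/-! Project MT. A Lie algebra of endomorphisms which contains a projection to a line. -/

set_option autoImplicit false

namespace Pool.Agent.Helper15.MT

open Module

variable {L V : Type*} [Field L] [AddCommGroup V] [Module L V]

/-- `x ↦ φ(x) v` -/
abbrev rk (v : V) (φ : Dual L V) : End L V := φ.smulRight v

theorem rk_apply (v : V) (φ : Dual L V) (x : V) : rk v φ x = φ x • v := rfl

theorem mul_rk (x : End L V) (v : V) (φ : Dual L V) : x * rk v φ = rk (x v) φ := by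
  ext u
  simp [rk_apply, Module.End.mul_apply]

theorem rk_mul (x : End L V) (v : V) (φ : Dual L V) : rk v φ * x = rk v (φ ∘ₗ x) := by
  ext u
  simp [rk_apply, Module.End.mul_apply]

theorem rk_add_left (v w : V) (φ : Dual L V) : rk (v + w) φ = rk v φ + rk w φ := by
  ext u
  simp [rk_apply]

theorem rk_smul_left (c : L) (v : V) (φ : Dual L V) : rk (c • v) φ = c • rk v φ := by
  ext u
  show φ u • (c • v) = c • (φ u • v)
  rw [smul_comm]

theorem rk_add_right (v : V) (φ ψ : Dual L V) : rk v (φ + ψ) = rk v φ + rk v ψ := by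
  ext u
  simp [rk_apply, add_smul]

theorem rk_smul_right (c : L) (v : V) (φ : Dual L V) : rk v (c • φ) = c • rk v φ := by
  ext u
  simp [rk_apply, mul_smul]

/-- closed under brackets -/
def IsLie (𝔩 : Submodule L (End L V)) : Prop := ∀ x ∈ 𝔩, ∀ y ∈ 𝔩, x * y - y * x ∈ 𝔩

/-- The parts of degree `-1` and `1` for the adjoint action of a projection. -/
theorem part_mem [CharZero L] {𝔩 : Submodule L (End L V)} (hl : IsLie 𝔩) {p x : End L V}
    (hp : p ∈ 𝔩) (hpp : p * p = p) (hx : x ∈ 𝔩) :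
    (1 - p) * x * p ∈ 𝔩 ∧ p * x * (1 - p) ∈ 𝔩 := by
  have h1 : x * p - p * x ∈ 𝔩 := hl x hx p hp
  have h2 : (x * p - p * x) * p - p * (x * p - p * x) ∈ 𝔩 := hl _ h1 p hp
  have h3 : (x * p - p * x) * p - p * (x * p - p * x) = x * p - (2 : L) • (p * x * p) + p * x := by
    rw [sub_mul, mul_sub, mul_assoc x p p, hpp, ← mul_assoc p p x, hpp, two_smul]
    noncomm_ring
  rw [h3] at h2
  have h4 : (2 : L) ≠ 0 := two_ne_zero
  constructor
  · have h5 : (1 - p) * x * p = (2 : L)⁻¹ • ((x * p - (2 : L) • (p * x * p) + p * x) +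
        (x * p - p * x)) := by
      rw [eq_inv_smul_iff₀ h4, two_smul, two_smul]
      noncomm_ring
    rw [h5]
    exact 𝔩.smul_mem _ (𝔩.add_mem h2 h1)
  · have h5 : p * x * (1 - p) = (2 : L)⁻¹ • ((x * p - (2 : L) • (p * x * p) + p * x) -
        (x * p - p * x)) := by
      rw [eq_inv_smul_iff₀ h4, two_smul, two_smul]
      noncomm_ring
    rw [h5]
    exact 𝔩.smul_mem _ (𝔩.sub_mem h2 h1)

/-- All the endomorphisms are sums of endomorphisms of rank one. -/
theorem eq_top_of_rk [FiniteDimensional L V] {𝔩 : Submodule L (End L V)}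
    (h : ∀ v φ, rk v φ ∈ 𝔩) : 𝔩 = ⊤ := by
  classical
  refine eq_top_iff.2 fun x _ => ?_
  let b := Module.finBasis L V
  have hx : x = ∑ i, rk (x (b i)) (b.coord i) := by
    refine b.ext fun j => ?_
    rw [LinearMap.sum_apply, Finset.sum_eq_single j]
    · simp [rk_apply]
    · intro i _ hij
      simp [rk_apply, hij.symm]
    · simp
  rw [hx]
  exact 𝔩.sum_mem fun i _ => h _ _

/-- **Irreducible Lie algebras with a projection to a line.** -/
theorem top_of_irred [CharZero L] [FiniteDimensional L V] {𝔩 : Submodule L (End L V)}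
    (hl : IsLie 𝔩) (v : V) (φ : Dual L V) (hv : φ v = 1) (hp : rk v φ ∈ 𝔩)
    (hirr : ∀ S : Submodule L V, (∀ x ∈ 𝔩, ∀ s ∈ S, x s ∈ S) → S = ⊥ ∨ S = ⊤) : 𝔩 = ⊤ := by
  classical
  have hpp : rk v φ * rk v φ = rk v φ := by rw [mul_rk, rk_apply, hv, one_smul]
  have hv0 : v ≠ 0 := by
    rintro rfl
    rw [map_zero] at hv
    exact zero_ne_one hv
  -- the elements `w ⊗ φ`
  let N : Submodule L V :=
    { carrier := {w | rk w φ ∈ 𝔩}
      add_mem' := fun {a b} ha hb => by
        show rk (a + b) φ ∈ 𝔩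
        rw [rk_add_left]
        exact 𝔩.add_mem ha hb
      zero_mem' := by
        show rk 0 φ ∈ 𝔩
        have : rk (0 : V) φ = 0 := by ext; simp
        rw [this]
        exact 𝔩.zero_mem
      smul_mem' := fun c a ha => by
        show rk (c • a) φ ∈ 𝔩
        rw [rk_smul_left]
        exact 𝔩.smul_mem _ ha }
  have hN : N = ⊤ := by
    refine (hirr N fun x hx w hw => ?_).resolve_left fun h => hv0 ?_
    · have h1 : x * rk w φ - rk w φ * x ∈ 𝔩 := hl x hx _ hw
      have h2 := (part_mem hl hp hpp h1).1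
      have h3 : (1 - rk v φ) * (x * rk w φ - rk w φ * x) * rk v φ =
          rk (x w) φ - φ (x w) • rk v φ - φ (x v) • (rk w φ - φ w • rk v φ) := by
        ext u
        simp only [Module.End.mul_apply, LinearMap.sub_apply, Module.End.one_apply, rk_apply,
          map_smul, map_sub, smul_sub, smul_smul, LinearMap.smul_apply, hv, mul_one]
        module
      rw [h3] at h2
      have h4 : rk (x w) φ = (rk (x w) φ - φ (x w) • rk v φ - φ (x v) • (rk w φ - φ w • rk v φ)) +
          (φ (x w) • rk v φ + φ (x v) • (rk w φ - φ w • rk v φ)) := by abel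
      show rk (x w) φ ∈ 𝔩
      rw [h4]
      exact 𝔩.add_mem h2 (𝔩.add_mem (𝔩.smul_mem _ hp)
        (𝔩.smul_mem _ (𝔩.sub_mem hw (𝔩.smul_mem _ hp))))
    · have h1 : v ∈ N := hp
      rw [h] at h1
      exact (Submodule.mem_bot L).1 h1
  have hN' : ∀ w, rk w φ ∈ 𝔩 := fun w => by
    have : w ∈ N := by rw [hN]; exact Submodule.mem_top
    exact this
  -- the elements `v ⊗ ψ`
  let N' : Submodule L (Dual L V) :=
    { carrier := {ψ | rk v ψ ∈ 𝔩}
      add_mem' := fun {a b} ha hb => by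
        show rk v (a + b) ∈ 𝔩
        rw [rk_add_right]
        exact 𝔩.add_mem ha hb
      zero_mem' := by
        show rk v 0 ∈ 𝔩
        have : rk v (0 : Dual L V) = 0 := by ext; simp
        rw [this]
        exact 𝔩.zero_mem
      smul_mem' := fun c a ha => by
        show rk v (c • a) ∈ 𝔩
        rw [rk_smul_right]
        exact 𝔩.smul_mem _ ha }
  have hstab : ∀ x ∈ 𝔩, ∀ ψ ∈ N', ψ ∘ₗ x ∈ N' := by
    intro x hx ψ hψ
    have h1 : rk v ψ * x - x * rk v ψ ∈ 𝔩 := hl _ hψ x hx
    have h2 := (part_mem hl hp hpp h1).2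
    have h3 : rk v φ * (rk v ψ * x - x * rk v ψ) * (1 - rk v φ) =
        rk v (ψ ∘ₗ x) - ψ (x v) • rk v φ - φ (x v) • (rk v ψ - ψ v • rk v φ) := by
      ext u
      simp only [Module.End.mul_apply, LinearMap.sub_apply, Module.End.one_apply, rk_apply,
        map_smul, map_sub, smul_sub, smul_smul, LinearMap.smul_apply, hv, mul_one,
        LinearMap.comp_apply]
      module
    rw [h3] at h2
    have h4 : rk v (ψ ∘ₗ x) = (rk v (ψ ∘ₗ x) - ψ (x v) • rk v φ -
        φ (x v) • (rk v ψ - ψ v • rk v φ)) +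
        (ψ (x v) • rk v φ + φ (x v) • (rk v ψ - ψ v • rk v φ)) := by abel
    show rk v (ψ ∘ₗ x) ∈ 𝔩
    rw [h4]
    exact 𝔩.add_mem h2 (𝔩.add_mem (𝔩.smul_mem _ hp)
      (𝔩.smul_mem _ (𝔩.sub_mem hψ (𝔩.smul_mem _ hp))))
  have hann : N'.dualCoannihilator = ⊥ := by
    refine (hirr _ fun x hx s hs => ?_).resolve_right fun h => ?_
    · rw [Submodule.mem_dualCoannihilator] at hs ⊢
      intro ψ hψ
      exact hs (ψ ∘ₗ x) (hstab x hx ψ hψ)
    · have h1 : v ∈ N'.dualCoannihilator := by rw [h]; exact Submodule.mem_top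
      rw [Submodule.mem_dualCoannihilator] at h1
      have h2 := h1 φ hp
      rw [hv] at h2
      exact one_ne_zero h2
  have hN'' : ∀ ψ, rk v ψ ∈ 𝔩 := fun ψ => by
    have h1 : N' = ⊤ := by
      rw [← Subspace.dualCoannihilator_dualAnnihilator_eq (W := N'), hann,
        Submodule.dualAnnihilator_bot]
    have : ψ ∈ N' := by rw [h1]; exact Submodule.mem_top
    exact this
  refine eq_top_of_rk fun w ψ => ?_
  have h1 : rk w φ * rk v ψ - rk v ψ * rk w φ ∈ 𝔩 := hl _ (hN' w) _ (hN'' ψ)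
  have h2 : rk w ψ = (rk w φ * rk v ψ - rk v ψ * rk w φ) + ψ w • rk v φ := by
    ext u
    simp only [Module.End.mul_apply, LinearMap.sub_apply, rk_apply, map_smul,
      LinearMap.add_apply, LinearMap.smul_apply, hv, mul_one, smul_smul]
    module
  rw [h2]
  exact 𝔩.add_mem h1 (𝔩.smul_mem _ hp)

end Pool.Agent.Helper15.MT
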