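import Pool.Agent.Helper15.MT.Irr
import Pool.Agent.Helper15.MT.Deriv
import Pool.Agent.Helper15.MT.Link

/-! Project MT. A block with a reflection. -/

set_option autoImplicit false

namespace Pool.Agent.Helper15.MT

open Module

variable {L W G : Type} [Field L] [Group G] [AddCommGroup W] [Module L W]

/-- On `B` the cocharacter `m` has the weight `a` on a line and the weight `b ≠ a` on a complement. -/
def IsRefl (ρ : G →* End L W) (m : Lˣ →* G) (B : Submodule L W) : Prop :=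
  ∃ (a b : ℤ) (v : W) (H : Submodule L W), a ≠ b ∧ v ≠ 0 ∧ B = Submodule.span L {v} ⊔ H ∧
    (∀ u : Lˣ, ρ (m u) v = ((u ^ a : Lˣ) : L) • v) ∧
    ∀ u : Lˣ, ∀ w ∈ H, ρ (m u) w = ((u ^ b : Lˣ) : L) • w

/-- The projection to the line is, up to scalars, the derivative. -/
theorem IsRefl.exists_rk [CharZero L] {ρ : G →* End L W} {m : Lˣ →* G}
    {B : Submodule L W} (h : IsRefl ρ m B) {D : End L W}
    (hD : IsWt (fun u => ρ (m u)) D) (hDB : ∀ s ∈ B, D s ∈ B) :
    ∃ (v : B) (φ : Dual L B) (c d : L), φ v = 1 ∧ c • (D.restrict hDB - d • 1) = rk v φ := by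
  classical
  obtain ⟨a, b, v, H, hab, hv, hB, h1, h2⟩ := h
  have hvB : v ∈ B := by
    rw [hB]
    exact Submodule.mem_sup_left (Submodule.mem_span_singleton_self v)
  have hab' : (a : L) - b ≠ 0 := by
    rw [sub_ne_zero]
    exact_mod_cast hab
  have e1 : D v = (a : L) • v := hD.apply_of_weight (h1 _)
  have e2 : ∀ w ∈ H, D w = (b : L) • w := fun w hw => hD.apply_of_weight (h2 _ w hw)
  let v' : B := ⟨v, hvB⟩
  have hv' : v' ≠ 0 := fun h => hv (congrArg Subtype.val h)
  let P : End L B := ((a : L) - b)⁻¹ • (D.restrict hDB - (b : L) • 1)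
  have hP : ∀ x : B, ((P x : B) : W) = ((a : L) - b)⁻¹ • (D x - (b : L) • (x : W)) := fun _ => rfl
  have hPv : P v' = v' := by
    apply Subtype.ext
    rw [hP]
    show ((a : L) - b)⁻¹ • (D v - (b : L) • v) = v
    rw [e1, ← sub_smul, smul_smul, inv_mul_cancel₀ hab', one_smul]
  have hPr : ∀ x : B, ∃ c : L, P x = c • v' := by
    rintro ⟨x, hx⟩
    have hx' := hx
    rw [hB] at hx'
    obtain ⟨y, hy, w, hw, rfl⟩ := Submodule.mem_sup.1 hx'
    obtain ⟨c, rfl⟩ := Submodule.mem_span_singleton.1 hy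
    refine ⟨c, Subtype.ext ?_⟩
    rw [hP]
    show ((a : L) - b)⁻¹ • (D (c • v + w) - (b : L) • (c • v + w)) = c • v
    rw [map_add, map_smul, e1, e2 w hw]
    have : c • (a : L) • v + (b : L) • w - (b : L) • (c • v + w) = ((a : L) - b) • c • v := by
      module
    rw [this, smul_smul, inv_mul_cancel₀ hab', one_smul]
  obtain ⟨f, hf⟩ : ∃ f : Dual L B, f v' = 1 := by
    obtain ⟨f, hf⟩ : ∃ f : Dual L B, f v' ≠ 0 := by
      by_contra hcon
      push Not at hcon
      exact hv' ((Module.forall_dual_apply_eq_zero_iff L v').1 hcon)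
    exact ⟨(f v')⁻¹ • f, by rw [LinearMap.smul_apply, smul_eq_mul, inv_mul_cancel₀ hf]⟩
  refine ⟨v', f ∘ₗ P, ((a : L) - b)⁻¹, b, ?_, LinearMap.ext fun x => ?_⟩
  · rw [LinearMap.comp_apply, hPv, hf]
  · show P x = _
    obtain ⟨c, hc⟩ := hPr x
    rw [rk_apply, LinearMap.comp_apply, hc, map_smul, hf, smul_eq_mul, mul_one]

/-- **A block with a reflection is full.** `J` is a subgroup such that subspaces which are stable
under a subgroup of finite index of `J` are stable under `G`. -/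
theorem block_full [CharZero L] [FiniteDimensional L W] (ρ : G →* End L W) (J : Subgroup G)
    (hsub : ∀ J' ≤ J, J'.relIndex J ≠ 0 → ∀ S : Submodule L W, (∀ g ∈ J', ∀ s ∈ S, ρ g s ∈ S) →
      GStab ρ S) (B : Submodule L W) (hB : GSimple ρ B)
    {𝔩 : Submodule L (End L B)} (hl : IsLie 𝔩)
    (hconj : ∀ g ∈ J, ∀ x ∈ 𝔩, resρ ρ B hB.1 g * x * resρ ρ B hB.1 g⁻¹ ∈ 𝔩)
    (v : B) (φ : Dual L B) (hv : φ v = 1) (hp : rk v φ ∈ 𝔩) : 𝔩 = ⊤ := by
  classical
  refine full_of_refl ((resρ ρ B hB.1).comp J.subtype) (fun Γ' hΓ' S hS => ?_) hl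
    (fun g x hx => hconj g g.2 x hx) v φ hv hp
  have h1 : (Γ'.map J.subtype).relIndex J ≠ 0 := by
    have h2 : (Γ'.map J.subtype).subgroupOf J = Γ' := by
      ext g
      rw [Subgroup.mem_subgroupOf, Subgroup.mem_map]
      constructor
      · rintro ⟨x, hx, hx'⟩
        have : x = g := Subtype.ext hx'
        rwa [this] at hx
      · intro hg
        exact ⟨g, hg, rfl⟩
    rw [Subgroup.relIndex, h2]
    exact hΓ'.index_ne_zero
  have h2 := hsub (Γ'.map J.subtype) (Subgroup.map_subtype_le Γ') h1 (S.map B.subtype) (by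
    rintro _ ⟨g, hg, rfl⟩ _ ⟨s, hs, rfl⟩
    exact ⟨_, hS g hg s hs, rfl⟩)
  rcases hB.2.2 _ h2 (Submodule.map_subtype_le B S) with h | h
  · left
    rw [eq_bot_iff]
    intro s hs
    have h3 : (s : W) ∈ S.map B.subtype := ⟨s, hs, rfl⟩
    rw [h] at h3
    rw [Submodule.mem_bot] at h3 ⊢
    exact Subtype.ext h3
  · right
    rw [eq_top_iff]
    intro s _
    have h3 : (s : W) ∈ S.map B.subtype := by rw [h]; exact s.2
    obtain ⟨s', hs', h4⟩ := h3
    have : s' = s := Subtype.ext h4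
    rwa [this] at hs'

end Pool.Agent.Helper15.MT
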