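import Mathlib

/-! Project MT. Multilinear forms which are fixed by a group, and by its Lie algebra. -/

set_option autoImplicit false

namespace Pool.Agent.Helper15.MT

open Module

variable {L Z : Type*} [Field L] [AddCommGroup Z] [Module L Z] {n : ℕ}

/-- `t` is fixed by `g`. -/
def Inv (g : End L Z) (t : MultilinearMap L (fun _ : Fin n => Z) L) : Prop :=
  ∀ z : Fin n → Z, t (fun k => g (z k)) = t z

/-- `t` is killed by the derivation `X`. -/
def Der (X : End L Z) (t : MultilinearMap L (fun _ : Fin n => Z) L) : Prop :=
  ∀ z : Fin n → Z, ∑ k, t (Function.update z k (X (z k))) = 0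

variable {t : MultilinearMap L (fun _ : Fin n => Z) L}

theorem Der.zero : Der (0 : End L Z) t := by
  intro z
  refine Finset.sum_eq_zero fun k _ => ?_
  rw [LinearMap.zero_apply, t.map_update_zero]

theorem Der.add {X Y : End L Z} (hX : Der X t) (hY : Der Y t) : Der (X + Y) t := by
  intro z
  simp only [LinearMap.add_apply, t.map_update_add, Finset.sum_add_distrib, hX z, hY z, add_zero]

theorem Der.smul {X : End L Z} (c : L) (hX : Der X t) : Der (c • X) t := by
  intro z
  simp only [LinearMap.smul_apply, t.map_update_smul, ← Finset.smul_sum, hX z, smul_zero]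

theorem Der.neg {X : End L Z} (hX : Der X t) : Der (-X) t := by
  rw [← neg_one_smul L]
  exact hX.smul _

theorem Der.sub {X Y : End L Z} (hX : Der X t) (hY : Der Y t) : Der (X - Y) t := by
  rw [sub_eq_add_neg]
  exact hX.add hY.neg

/-- the Lie algebra of a form -/
theorem Der.bracket {X Y : End L Z} (hX : Der X t) (hY : Der Y t) : Der (X * Y - Y * X) t := by
  classical
  intro z
  obtain ⟨F, hF⟩ : ∃ F : Fin n → Fin n → L, ∀ k l, F k l =
    t (Function.update (Function.update z k (X (z k))) l (Y ((Function.update z k (X (z k))) l))) :=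
    ⟨_, fun _ _ => rfl⟩
  obtain ⟨G, hG⟩ : ∃ G : Fin n → Fin n → L, ∀ k l, G k l =
    t (Function.update (Function.update z k (Y (z k))) l (X ((Function.update z k (Y (z k))) l))) :=
    ⟨_, fun _ _ => rfl⟩
  have h1 : ∑ k, ∑ l, F k l = 0 := Finset.sum_eq_zero fun k _ => by
    rw [← hY (Function.update z k (X (z k)))]
    exact Finset.sum_congr rfl fun l _ => hF k l
  have h2 : ∑ k, ∑ l, G k l = 0 := Finset.sum_eq_zero fun k _ => by
    rw [← hX (Function.update z k (Y (z k)))]
    exact Finset.sum_congr rfl fun l _ => hG k l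
  have h3 : ∑ k, ∑ l, (G k l - F l k) = 0 := by
    simp only [Finset.sum_sub_distrib, h2, zero_sub, neg_eq_zero]
    rw [Finset.sum_comm, h1]
  rw [← h3]
  refine Finset.sum_congr rfl fun k _ => ?_
  rw [Finset.sum_eq_single k]
  · rw [hF, hG, Function.update_idem, Function.update_idem, Function.update_self,
      Function.update_self, LinearMap.sub_apply, t.map_update_sub]
    rfl
  · intro l _ hlk
    rw [hF, hG, Function.update_of_ne hlk, Function.update_of_ne hlk.symm,
      Function.update_comm hlk, sub_self]
  · intro h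
    exact absurd (Finset.mem_univ k) h

/-- conjugates -/
theorem Der.conj {X g g' : End L Z} (hg : g * g' = 1) (h : Inv g t) (hX : Der X t) :
    Der (g * X * g') t := by
  classical
  intro z
  rw [← hX (fun k => g' (z k))]
  refine Finset.sum_congr rfl fun k _ => ?_
  rw [← h (Function.update (fun k => g' (z k)) k (X (g' (z k))))]
  congr 1
  funext l
  by_cases hl : l = k
  · subst hl
    rw [Function.update_self, Function.update_self]
    rfl
  · rw [Function.update_of_ne hl, Function.update_of_ne hl, ← Module.End.mul_apply, hg,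
      Module.End.one_apply]

theorem prod_zpow_sum {G ι : Type*} [CommGroup G] (u : G) (s : Finset ι) (a : ι → ℤ) :
    ∏ k ∈ s, u ^ a k = u ^ ∑ k ∈ s, a k := by
  classical
  induction s using Finset.induction_on with
  | empty => simp
  | insert k s hk ih => rw [Finset.prod_insert hk, Finset.sum_insert hk, zpow_add, ih]

theorem zpow_two_eq_one [CharZero L] {N : ℤ} (h : (2 : L) ^ N = 1) : N = 0 := by
  have h1 : ((2 : ℚ) ^ N : ℚ) = 1 := by
    have : (((2 : ℚ) ^ N : ℚ) : L) = ((1 : ℚ) : L) := by
      push_cast
      exact h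
    exact_mod_cast this
  exact (zpow_eq_one_iff_right₀ (by norm_num) (by norm_num)).1 h1

/-- `m u` is diagonal in a basis, with the entries `u ^ p`, and `D` has the entries `p`. -/
def IsWt (m : Lˣ → End L Z) (D : End L Z) : Prop :=
  ∃ (ι : Type) (_ : Finite ι) (b : Basis ι L Z) (p : ι → ℤ),
    ∀ i, (∀ u : Lˣ, m u (b i) = ((u ^ p i : Lˣ) : L) • b i) ∧ D (b i) = (p i : L) • b i

theorem isWt_iff [CharZero L] {m : Lˣ → End L Z} {D : End L Z} (h : IsWt m D) :
    (∀ u, Inv (m u) t) ↔ Der D t := by
  classical
  obtain ⟨ι, hι, b, p, hb⟩ := h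
  have e1 : ∀ u (f : Fin n → ι), t (fun k => m u (b (f k))) =
      ((u ^ (∑ k, p (f k)) : Lˣ) : L) * t (fun k => b (f k)) := by
    intro u f
    have h1 : (fun k => m u (b (f k))) = fun k => ((u ^ p (f k) : Lˣ) : L) • b (f k) := by
      funext k
      exact (hb (f k)).1 u
    rw [h1, t.map_smul_univ, smul_eq_mul]
    congr 1
    rw [← Units.coe_prod, prod_zpow_sum]
  have e2 : ∀ f : Fin n → ι, ∑ k, t (Function.update (fun k => b (f k)) k (D (b (f k)))) =
      ((∑ k, p (f k) : ℤ) : L) * t (fun k => b (f k)) := by
    intro f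
    rw [Int.cast_sum, Finset.sum_mul]
    refine Finset.sum_congr rfl fun k _ => ?_
    rw [(hb (f k)).2, t.map_update_smul, smul_eq_mul]
    congr 1
    rw [Function.update_eq_self (f := fun k => b (f k)) k]
  have e3 : Der D t ↔ ∀ f : Fin n → ι, ∑ k, t (Function.update (fun k => b (f k)) k
      (D (b (f k)))) = 0 := by
    constructor
    · intro h f
      exact h _
    · intro h z
      let T : MultilinearMap L (fun _ : Fin n => Z) L :=
        ∑ k, t.compLinearMap (fun j => if j = k then D else LinearMap.id)
      have hT : ∀ z, T z = ∑ k, t (Function.update z k (D (z k))) := by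
        intro z
        rw [_root_.sum_apply]
        refine Finset.sum_congr rfl fun k _ => ?_
        rw [MultilinearMap.compLinearMap_apply]
        congr 1
        funext j
        by_cases hj : j = k
        · subst hj
          rw [Function.update_self, if_pos rfl]
        · rw [Function.update_of_ne hj, if_neg hj]
          rfl
      have h1 : T = 0 := by
        refine Basis.ext_multilinear (fun _ => b) fun f => ?_
        rw [hT, h f]
        rfl
      rw [← hT, h1]
      rfl
  have e4 : (∀ u, Inv (m u) t) ↔ ∀ u (f : Fin n → ι), t (fun k => m u (b (f k))) =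
      t (fun k => b (f k)) := by
    constructor
    · intro h u f
      exact h u _
    · intro h u z
      have h1 : t.compLinearMap (fun _ => m u) = t := by
        refine Basis.ext_multilinear (fun _ => b) fun f => ?_
        rw [MultilinearMap.compLinearMap_apply]
        exact h u f
      conv_rhs => rw [← h1]
      rfl
  rw [e3, e4]
  constructor
  · intro h f
    rw [e2]
    by_cases h0 : t (fun k => b (f k)) = 0
    · rw [h0, mul_zero]
    · have h2 : (∑ k, p (f k)) = 0 := by
        have h3 := h (Units.mk0 2 two_ne_zero) f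
        rw [e1] at h3
        have h4 : (((Units.mk0 (2 : L) two_ne_zero) ^ (∑ k, p (f k)) : Lˣ) : L) = 1 :=
          mul_right_cancel₀ h0 (h3.trans (one_mul _).symm)
        rw [Units.val_zpow_eq_zpow_val, Units.val_mk0] at h4
        exact zpow_two_eq_one h4
      rw [h2, Int.cast_zero, zero_mul]
  · intro h u f
    rw [e1]
    by_cases h0 : t (fun k => b (f k)) = 0
    · rw [h0, mul_zero]
    · have h1 := h f
      rw [e2] at h1
      have h2 : ((∑ k, p (f k) : ℤ) : L) = 0 := (mul_eq_zero.1 h1).resolve_right h0
      have h3 : (∑ k, p (f k)) = 0 := by exact_mod_cast h2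
      rw [h3, zpow_zero, Units.val_one, one_mul]

end Pool.Agent.Helper15.MT
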